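import Mathlib

/-!
# Project NX2, parts B and C: the cell averages of the weighted indicator function of a set of primes
-/

set_option autoImplicit false

open Finset
open scoped BigOperators

namespace Pool.Agent.Helper57.NX3

noncomputable section

/-- the indicator function of `A` times `log (2 ^ z)` -/
def FA (z : ℕ) (A : Finset ℕ) (x : ℕ) : ℝ := if x ∈ A then Real.log ((2 : ℝ) ^ z) else 0

/-- the dyadic block of length `2 ^ b` of `x` -/
def blo (b x : ℕ) : Finset ℕ := Ico (2 ^ b * (x / 2 ^ b)) (2 ^ b * (x / 2 ^ b + 1))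

/-- cell averages: `M / 2 ^ b` times the sum over the `y` in the dyadic block of `x` with
`y ≡ x mod M` -/
def cd (f : ℕ → ℝ) (M b x : ℕ) : ℝ :=
  (M : ℝ) / 2 ^ b * ∑ y ∈ (blo b x).filter (fun y => y ≡ x [MOD M]), f y

/-- forward averages on the natural numbers -/
def AN (L : ℕ) (f : ℕ → ℝ) (x : ℕ) : ℝ := (∑ t ∈ range L, f (x + t)) / L

/-- normalised energy of the cell averages -/
def En (z : ℕ) (A : Finset ℕ) (M b : ℕ) : ℝ :=
  (M.totient : ℝ) / M * ((∑ x ∈ range (2 ^ z), cd (FA z A) M b x ^ 2) / 2 ^ z)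

/-- sets of primes below `2 ^ z` -/
def PS (z : ℕ) (A : Finset ℕ) : Prop := ∀ p ∈ A, p.Prime ∧ p < 2 ^ z

end

end Pool.Agent.Helper57.NX3
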