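import Pool.Agent.Helper57.NX3.Defs
import Pool.Agent.Helper61.NX.PatB
import Pool.Agent.Helper67.NX2.DefsB

/-!
# Project NX2, module C15, part 1: splitting the product over the positions
-/

set_option autoImplicit false

open Finset
open scoped BigOperators

namespace Pool.Agent.Helper57.NX3

open Pool.Agent.Helper57.NX (ind ind_nonneg)
open Pool.Agent.Helper67.NX2 (IsN sh)

noncomputable section

/-- splitting a product over the positions into natural and other positions -/
theorem prod_split {m s : ℕ} (c : Fin m → ℝ) [DecidablePred fun i : Fin m => IsN (c i)]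
    (em : Fin s → Fin m) (hem : Function.Injective em)
    (hN : ∀ j, IsN (c (em j))) (hall : ∀ i, IsN (c i) → ∃ j, em j = i) (g : Fin m → ℝ) :
    ∏ i, g i = (∏ j, g (em j)) * ∏ i : {i : Fin m // ¬ IsN (c i)}, g i := by
  rw [← Fintype.prod_subtype_mul_prod_subtype (fun i : Fin m => IsN (c i)) g]
  congr 1
  have hb : Function.Bijective (fun j : Fin s => (⟨em j, hN j⟩ : {i : Fin m // IsN (c i)})) := by
    constructor
    · intro j j' h
      exact hem (congrArg Subtype.val h)
    · rintro ⟨i, hi⟩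
      obtain ⟨j, hj⟩ := hall i hi
      exact ⟨j, Subtype.ext hj⟩
  exact (Function.Bijective.prod_comp hb (fun i : {i : Fin m // IsN (c i)} => g i)).symm

/-- the shift of the position `i`: exact at natural exponents, frozen at the others -/
def vv {m : ℕ} (c : Fin m → ℝ) (v : {i : Fin m // ¬ IsN (c i)} → ℕ) (n : ℕ) (i : Fin m) : ℕ := by
  classical exact if h : IsN (c i) then ⌊(n : ℝ) ^ c i⌋₊ else v ⟨i, h⟩

theorem vv_nat {m : ℕ} (c : Fin m → ℝ) (v : {i : Fin m // ¬ IsN (c i)} → ℕ) (n : ℕ) (i : Fin m)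
    (d : ℕ) (h : c i = d) : vv c v n i = n ^ d := by
  classical
  have h1 : IsN (c i) := ⟨d, h⟩
  unfold vv
  rw [dif_pos h1, h, Real.rpow_natCast, ← Nat.cast_pow, Nat.floor_natCast]

theorem vv_real {m : ℕ} (c : Fin m → ℝ) (v : {i : Fin m // ¬ IsN (c i)} → ℕ) (n : ℕ)
    (i : {i : Fin m // ¬ IsN (c i)}) : vv c v n i = v i := by
  classical
  unfold vv
  rw [dif_neg i.2]

theorem FA_ind (z : ℕ) (A : Finset ℕ) (x : ℕ) :
    FA z A x = Real.log ((2 : ℝ) ^ z) * ind A x := by
  unfold FA ind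
  split_ifs <;> simp

/-- For one `n`: the sum over `p ∈ A` in `lower_mixed` is at least a constant times the sum with
the weighted functions. -/
theorem conv_k {m s : ℕ} (c : Fin m → ℝ) [DecidablePred fun i : Fin m => IsN (c i)]
    (d : Fin s → ℕ) (em : Fin s → Fin m)
    (hem : Function.Injective em) (hd : ∀ j, c (em j) = d j)
    (hall : ∀ i, IsN (c i) → ∃ j, em j = i) (z : ℕ) (hz : 1 ≤ z) (A : Finset ℕ) (hA : PS z A)
    (n : ℕ) (v : {i : Fin m // ¬ IsN (c i)} → ℕ) (B : Fin m → ℕ)
    (hB : ∀ i, ¬ IsN (c i) → 2 ≤ B i) :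
    (∑ x ∈ range (2 ^ z), (∏ j : {i : Fin m // ¬ IsN (c i)}, AN (B j / 2) (FA z A) (x + v j)) *
      ∏ o : Option (Fin s), FA z A (x + sh d n o)) /
        (Real.log ((2 : ℝ) ^ z) ^ (m + 1) * 4 ^ m) ≤
    ∑ p ∈ A, ∏ i, (if IsN (c i) then ind A (p + vv c v n i) else
        (∑ w ∈ range (B i / 2), ind A (p + vv c v n i + w)) / ((B i : ℝ) + 1)) := by
  have hlz : 0 < Real.log ((2 : ℝ) ^ z) := by
    rw [Real.log_pow]
    have h1 : (1 : ℝ) ≤ z := by exact_mod_cast hz
    have h2 : 0 < Real.log 2 := Real.log_pos (by norm_num)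
    positivity
  set lz := Real.log ((2 : ℝ) ^ z) with hlzdef
  have hcard : Fintype.card {i : Fin m // ¬ IsN (c i)} + s = m := by
    have hb : Function.Bijective
        (fun j : Fin s => (⟨em j, ⟨d j, hd j⟩⟩ : {i : Fin m // IsN (c i)})) := by
      constructor
      · intro j j' h
        exact hem (congrArg Subtype.val h)
      · rintro ⟨i, hi⟩
        obtain ⟨j, hj⟩ := hall i hi
        exact ⟨j, Subtype.ext hj⟩
    have h1 := Fintype.card_of_bijective hb
    rw [Fintype.card_fin] at h1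
    have h2 := Fintype.card_subtype_compl (fun i : Fin m => IsN (c i))
    rw [Fintype.card_fin] at h2
    have h3 : Fintype.card {i : Fin m // IsN (c i)} ≤ m := by
      have := Fintype.card_subtype_le (fun i : Fin m => IsN (c i))
      rwa [Fintype.card_fin] at this
    omega
  -- the sum over `p ∈ A` as a sum over `range`
  have hsum : ∑ p ∈ A, ∏ i, (if IsN (c i) then ind A (p + vv c v n i) else
        (∑ w ∈ range (B i / 2), ind A (p + vv c v n i + w)) / ((B i : ℝ) + 1)) =
      ∑ x ∈ range (2 ^ z), ind A x * ∏ i, (if IsN (c i) then ind A (x + vv c v n i) else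
        (∑ w ∈ range (B i / 2), ind A (x + vv c v n i + w)) / ((B i : ℝ) + 1)) := by
    have hsub : A ⊆ range (2 ^ z) := fun p hp => Finset.mem_range.mpr (hA p hp).2
    rw [← Finset.sum_subset hsub (f := fun x => ind A x * ∏ i, (if IsN (c i) then
      ind A (x + vv c v n i) else
        (∑ w ∈ range (B i / 2), ind A (x + vv c v n i + w)) / ((B i : ℝ) + 1)))]
    · refine Finset.sum_congr rfl fun p hp => ?_
      have : ind A p = 1 := if_pos hp
      rw [this, one_mul]
    · intro x _ hx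
      have : ind A x = 0 := if_neg hx
      rw [this, zero_mul]
  rw [hsum, Finset.sum_div]
  refine Finset.sum_le_sum fun x _ => ?_
  have hN : ∀ j, IsN (c (em j)) := fun j => ⟨d j, hd j⟩
  rw [prod_split c em hem hN hall]
  have h1 : ∏ j : Fin s, (if IsN (c (em j)) then ind A (x + vv c v n (em j)) else
        (∑ w ∈ range (B (em j) / 2), ind A (x + vv c v n (em j) + w)) / ((B (em j) : ℝ) + 1)) =
      ∏ j : Fin s, ind A (x + n ^ d j) := by
    refine Finset.prod_congr rfl fun j _ => ?_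
    rw [if_pos (hN j), vv_nat c v n (em j) (d j) (hd j)]
  have h2 : ∏ j : {i : Fin m // ¬ IsN (c i)}, (AN (B j / 2) (FA z A) (x + v j) / (4 * lz)) ≤
      ∏ i : {i : Fin m // ¬ IsN (c i)}, (if IsN (c i) then ind A (x + vv c v n i) else
        (∑ w ∈ range (B i / 2), ind A (x + vv c v n i + w)) / ((B i : ℝ) + 1)) := by
    refine Finset.prod_le_prod (fun j _ => ?_) fun j _ => ?_
    · refine div_nonneg (div_nonneg (Finset.sum_nonneg fun w _ => ?_) (Nat.cast_nonneg _))
        (by positivity)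
      rw [FA_ind]
      exact mul_nonneg hlz.le (ind_nonneg _ _)
    · rw [if_neg j.2, vv_real]
      unfold AN
      simp_rw [FA_ind]
      rw [← Finset.mul_sum, ← hlzdef]
      set S := ∑ w ∈ range (B j / 2), ind A (x + v j + w) with hS
      have hS0 : 0 ≤ S := Finset.sum_nonneg fun w _ => ind_nonneg _ _
      have h3 := hB j j.2
      have h4 : (1 : ℝ) ≤ ((B j / 2 : ℕ) : ℝ) := by
        have : 1 ≤ B j / 2 := by omega
        exact_mod_cast this
      have h5 : (B j : ℝ) + 1 ≤ 4 * ((B j / 2 : ℕ) : ℝ) := by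
        have : B (j : Fin m) + 1 ≤ 4 * (B (j : Fin m) / 2) := by omega
        exact_mod_cast this
      rw [div_div, div_le_div_iff₀ (by positivity) (by positivity)]
      have h6 : 0 ≤ lz * S := mul_nonneg hlz.le hS0
      calc lz * S * ((B j : ℝ) + 1) ≤ lz * S * (4 * ((B j / 2 : ℕ) : ℝ)) :=
            mul_le_mul_of_nonneg_left h5 h6
        _ = S * (((B j / 2 : ℕ) : ℝ) * (4 * lz)) := by ring
  have h3 : ∏ o : Option (Fin s), FA z A (x + sh d n o) =
      lz ^ (s + 1) * (ind A x * ∏ j : Fin s, ind A (x + n ^ d j)) := by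
    rw [Fintype.prod_option]
    simp only [sh, add_zero, FA_ind]
    rw [Finset.prod_mul_distrib, Finset.prod_const, Finset.card_univ, Fintype.card_fin, ← hlzdef]
    ring
  rw [h1, h3]
  have h4 : ∏ j : {i : Fin m // ¬ IsN (c i)}, (AN (B j / 2) (FA z A) (x + v j) / (4 * lz)) =
      (∏ j : {i : Fin m // ¬ IsN (c i)}, AN (B j / 2) (FA z A) (x + v j)) /
        (4 * lz) ^ (Fintype.card {i : Fin m // ¬ IsN (c i)}) := by
    rw [Finset.prod_div_distrib, Finset.prod_const, Finset.card_univ]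
  rw [h4] at h2
  set r := Fintype.card {i : Fin m // ¬ IsN (c i)} with hr
  set P := ∏ j : {i : Fin m // ¬ IsN (c i)}, AN (B j / 2) (FA z A) (x + v j) with hP
  have hP0 : 0 ≤ P := by
    refine Finset.prod_nonneg fun j _ => ?_
    refine div_nonneg (Finset.sum_nonneg fun w _ => ?_) (Nat.cast_nonneg _)
    rw [FA_ind]
    exact mul_nonneg hlz.le (ind_nonneg _ _)
  set W := ind A x * ∏ j : Fin s, ind A (x + n ^ d j) with hW
  have hW0 : 0 ≤ W := mul_nonneg (ind_nonneg _ _) (Finset.prod_nonneg fun j _ => ind_nonneg _ _)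
  have h5 : P * (lz ^ (s + 1) * W) / (lz ^ (m + 1) * 4 ^ m) ≤ W * (P / (4 * lz) ^ r) := by
    rw [div_le_iff₀ (by positivity)]
    have h6 : lz ^ (m + 1) = lz ^ (s + 1) * lz ^ r := by
      rw [← pow_add]
      congr 1
      omega
    have h7 : (4 : ℝ) ^ r ≤ 4 ^ m := pow_le_pow_right₀ (by norm_num) (by omega)
    rw [h6, mul_pow]
    have h8 : W * (P / (4 ^ r * lz ^ r)) * (lz ^ (s + 1) * lz ^ r * 4 ^ m) =
        P * (lz ^ (s + 1) * W) * (4 ^ m / 4 ^ r) := by
      field_simp
    rw [h8]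
    have h9 : (1 : ℝ) ≤ 4 ^ m / 4 ^ r := by
      rw [le_div_iff₀ (by positivity), one_mul]
      exact h7
    exact le_mul_of_one_le_right (by positivity) h9
  refine h5.trans ?_
  refine (mul_le_mul_of_nonneg_left h2 hW0).trans (le_of_eq ?_)
  rw [hW, mul_assoc]

end

end Pool.Agent.Helper57.NX3
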