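import Pool.Agent.Helper57.NX3.PatWin

/-!
# Project NX2, module C15, part 3: sizes
-/

set_option autoImplicit false

open Finset
open scoped BigOperators

namespace Pool.Agent.Helper57.NX3

open Pool.Agent.Helper57.NX (ind ind_nonneg gA g0A AR Sys Good)
open Pool.Agent.Helper67.NX2 (IsN sh nform IG Ex)

noncomputable section

/-- powers of two near `D ^ e` -/
theorem two_pow_floor (β1 : ℕ) (e : ℝ) (he : 0 ≤ e) :
    (2 : ℝ) ^ ⌊(β1 : ℝ) * e⌋₊ ≤ (((2 ^ β1 : ℕ) : ℝ)) ^ e ∧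
      (((2 ^ β1 : ℕ) : ℝ)) ^ e / 2 ≤ (2 : ℝ) ^ ⌊(β1 : ℝ) * e⌋₊ := by
  have h1 : (((2 ^ β1 : ℕ) : ℝ)) ^ e = (2 : ℝ) ^ ((β1 : ℝ) * e) := by
    push_cast
    rw [← Real.rpow_natCast, ← Real.rpow_mul (by norm_num)]
  rw [h1]
  constructor
  · rw [← Real.rpow_natCast]
    exact Real.rpow_le_rpow_of_exponent_le (by norm_num) (Nat.floor_le (by positivity))
  · rw [div_le_iff₀ (by norm_num)]
    have h2 : (2 : ℝ) ^ ⌊(β1 : ℝ) * e⌋₊ * 2 = (2 : ℝ) ^ (((⌊(β1 : ℝ) * e⌋₊ : ℕ) : ℝ) + 1) := by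
      rw [Real.rpow_add (by norm_num), Real.rpow_natCast, Real.rpow_one]
    rw [h2]
    exact Real.rpow_le_rpow_of_exponent_le (by norm_num) (Nat.lt_floor_add_one _).le

/-- the systems are good -/
theorem IG_SK {m : ℕ} (c : Fin m → ℝ) (hc : ∀ i, 0 < c i) (D K Z P : ℕ) (x : ℝ) (hx : 0 < x)
    (hD : 2 ≤ D) (hK : 1 ≤ K) (hKx : ∀ i, (K : ℝ) ^ (c i) ≤ (D : ℝ) ^ x)
    (hKZ : ∀ i, ((K : ℝ) * D) ^ (c i) ≤ 2 * Z) (hZ : 1 ≤ Z) (hP : P.Prime) (hPZ : 2 * Z < P) :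
    IG (SK D K c) c (D ^ 2 * P) x K := by
  have hDr : (2 : ℝ) ≤ D := by exact_mod_cast hD
  have hDr1 : (1 : ℝ) ≤ D := by linarith
  have hD0 : (0 : ℝ) < D := by linarith
  have hKr : (1 : ℝ) ≤ K := by exact_mod_cast hK
  have hK0 : (0 : ℝ) < K := by linarith
  have hQ : ((D ^ 2 : ℕ) : ℝ) = (D : ℝ) ^ (2 : ℝ) := by push_cast; rw [Real.rpow_two]
  have hQ0 : (0 : ℝ) < ((D ^ 2 : ℕ) : ℝ) := by positivity
  have hDx : (1 : ℝ) ≤ (D : ℝ) ^ x := Real.one_le_rpow hDr1 hx.le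
  have hPr : 2 * (Z : ℝ) ≤ P := by exact_mod_cast hPZ.le
  have hgood : Good (SK D K c) c (D ^ 2 * P) x := by
    refine ⟨le_rfl, zero_le_one, ?_, ?_, ?_, ?_, ?_, ?_, ?_, ?_, ?_⟩
    · change (D : ℝ) ^ (2 : ℝ) ≤ ((D ^ 2 : ℕ) : ℝ)
      rw [hQ]
    · change ((D ^ 2 : ℕ) : ℝ) ≤ (D : ℝ) ^ (3 : ℝ)
      rw [hQ]
      exact Real.rpow_le_rpow_of_exponent_le hDr1 (by norm_num)
    · intro i
      change ((D ^ 2 : ℕ) : ℝ) * (D : ℝ) ^ (c i - x) ≤ ((D ^ 2 : ℕ) : ℝ) * ((K : ℝ) * D) ^ (c i)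
      refine mul_le_mul_of_nonneg_left ?_ hQ0.le
      calc (D : ℝ) ^ (c i - x) ≤ (D : ℝ) ^ (c i) :=
            Real.rpow_le_rpow_of_exponent_le hDr1 (by linarith)
        _ ≤ ((K : ℝ) * D) ^ (c i) := by
            refine Real.rpow_le_rpow hD0.le ?_ (hc i).le
            nlinarith
    · intro i
      change ((D ^ 2 : ℕ) : ℝ) * ((K : ℝ) * D) ^ (c i) ≤ ((D ^ 2 : ℕ) : ℝ) * (D : ℝ) ^ (c i + x)
      refine mul_le_mul_of_nonneg_left ?_ hQ0.le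
      rw [Real.mul_rpow hK0.le hD0.le, Real.rpow_add hD0, mul_comm]
      exact mul_le_mul_of_nonneg_left (hKx i) (by positivity)
    · intro i
      change ((D ^ 2 : ℕ) : ℝ) * ((K : ℝ) * D) ^ (c i) ≤ ((D ^ 2 * P : ℕ) : ℝ) * (D : ℝ) ^ x
      have h1 : ((D ^ 2 * P : ℕ) : ℝ) = ((D ^ 2 : ℕ) : ℝ) * P := by push_cast; ring
      rw [h1]
      calc ((D ^ 2 : ℕ) : ℝ) * ((K : ℝ) * D) ^ (c i) ≤ ((D ^ 2 : ℕ) : ℝ) * P :=
            mul_le_mul_of_nonneg_left ((hKZ i).trans hPr) hQ0.le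
        _ = ((D ^ 2 : ℕ) : ℝ) * P * 1 := (mul_one _).symm
        _ ≤ _ := mul_le_mul_of_nonneg_left hDx (by positivity)
    · change ((D ^ 2 : ℕ) : ℝ) ≤ ((D ^ 2 * P : ℕ) : ℝ)
      have h1 : D ^ 2 * 1 ≤ D ^ 2 * P := Nat.mul_le_mul_left _ hP.one_lt.le
      rw [mul_one] at h1
      exact_mod_cast h1
    · exact le_rfl
    · change (D : ℝ) + D ≤ 2 * D
      linarith
    · change (D : ℝ) ^ (1 - x) ≤ D
      calc (D : ℝ) ^ (1 - x) ≤ (D : ℝ) ^ (1 : ℝ) :=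
            Real.rpow_le_rpow_of_exponent_le hDr1 (by linarith)
        _ = D := Real.rpow_one _
  refine ⟨hgood, ?_, hK, ⟨0, ?_⟩, ?_, ⟨P, hP, rfl⟩⟩
  · change ((D ^ 2 : ℕ) : ℝ) ≤ (D : ℝ) ^ (5 / 2 + x)
    rw [hQ]
    exact Real.rpow_le_rpow_of_exponent_le hDr1 (by linarith)
  · change (0 : ℝ) * K = ((0 : ℕ) : ℝ)
    simp
  · intro i d hd
    change ((D ^ 2 : ℕ) : ℝ) * ((K : ℝ) * D) ^ (c i) = ((D ^ 2 : ℕ) : ℝ) * ((K : ℝ) * D) ^ d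
    rw [hd, Real.rpow_natCast]

/-- `2^(z τ)` beats every constant and every power of `z` -/
theorem size_ev (τ σ : ℝ) (hτ : 0 < τ) (hσ : 0 < σ) (n : ℕ) (C : ℝ) :
    ∃ z0 : ℕ, ∀ z : ℕ, z0 ≤ z → C ≤ (((2 : ℝ) ^ z) ^ τ) ^ σ ∧
      (((2 : ℝ) ^ z) ^ τ) ^ (-σ) ≤ (z : ℝ)⁻¹ ^ n := by
  have hb : 0 < τ * σ * Real.log 2 := by
    have : 0 < Real.log 2 := Real.log_pos (by norm_num)
    positivity
  have h0 : ∀ z : ℕ, (((2 : ℝ) ^ z) ^ τ) ^ σ = Real.exp ((τ * σ * Real.log 2) * z) := by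
    intro z
    rw [← Real.rpow_mul (by positivity), ← Real.rpow_natCast, ← Real.rpow_mul (by norm_num),
      Real.rpow_def_of_pos (by norm_num)]
    congr 1
    ring
  have h1 : Filter.Tendsto (fun z : ℕ => Real.exp ((τ * σ * Real.log 2) * (z : ℝ)))
      Filter.atTop Filter.atTop :=
    Real.tendsto_exp_atTop.comp
      (Filter.Tendsto.const_mul_atTop hb tendsto_natCast_atTop_atTop)
  have h2 : Filter.Tendsto (fun x : ℝ => x ^ n * Real.exp (-(τ * σ * Real.log 2) * x))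
      Filter.atTop (nhds 0) := by
    have := Real.tendsto_pow_mul_exp_neg_atTop_nhds_zero n
    have h3 : Filter.Tendsto (fun x : ℝ => (τ * σ * Real.log 2) * x) Filter.atTop Filter.atTop :=
      Filter.Tendsto.const_mul_atTop hb Filter.tendsto_id
    have h4 := (this.comp h3).const_mul (((τ * σ * Real.log 2) ^ n)⁻¹)
    rw [mul_zero] at h4
    refine h4.congr fun x => ?_
    simp only [Function.comp]
    rw [mul_pow _ x n]
    have h5 : (τ * σ * Real.log 2) ^ n ≠ 0 := (pow_pos hb n).ne'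
    rw [neg_mul, ← mul_assoc, ← mul_assoc, inv_mul_cancel₀ h5, one_mul]
  have h3 : ∀ᶠ z : ℕ in Filter.atTop,
      (z : ℝ) ^ n * Real.exp (-(τ * σ * Real.log 2) * z) < 1 :=
    tendsto_natCast_atTop_atTop.eventually (h2.eventually_lt_const one_pos)
  obtain ⟨z1, hz1⟩ := Filter.eventually_atTop.mp (h1.eventually (Filter.eventually_ge_atTop C))
  obtain ⟨z2, hz2⟩ := Filter.eventually_atTop.mp h3
  refine ⟨max (max z1 z2) 1, fun z hz => ?_⟩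
  have hza := hz1 z ((le_max_left _ _).trans ((le_max_left _ _).trans hz))
  have hzb := hz2 z ((le_max_right _ _).trans ((le_max_left _ _).trans hz))
  have hz1' : 1 ≤ z := (le_max_right _ _).trans hz
  have hz0 : (0 : ℝ) < z := by exact_mod_cast hz1'
  refine ⟨by rw [h0]; exact hza, ?_⟩
  rw [Real.rpow_neg (by positivity), h0, ← Real.exp_neg, inv_pow, le_inv_comm₀ (Real.exp_pos _)
    (by positivity), ← Real.exp_neg, neg_neg]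
  rw [neg_mul, Real.exp_neg] at hzb
  rw [← div_eq_mul_inv, div_lt_one (Real.exp_pos _)] at hzb
  exact hzb.le

/-- the scales -/
theorem scale_facts (Θ j z : ℕ) (τ : ℝ) (hΘ : 2 ≤ Θ) (hτ : τ * (2 * Θ ^ (j + 2)) ≤ 1)
    (hz : 2 * Θ ^ (j + 2) ≤ z) :
    ((2 : ℝ) ^ z) ^ τ ≤ (((2 ^ (z / Θ ^ (j + 2)) : ℕ)) : ℝ) ∧
      (z / Θ ^ (j + 2)) * Θ ≤ z / Θ ^ (j + 1) ∧ z / Θ ^ (j + 1) ≤ z := by
  have hpos : 0 < Θ ^ (j + 2) := by positivity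
  have hposr : (0 : ℝ) < ((Θ ^ (j + 2) : ℕ) : ℝ) := by exact_mod_cast hpos
  refine ⟨?_, ?_, Nat.div_le_self _ _⟩
  · have h1 : (z : ℝ) * τ ≤ ((z / Θ ^ (j + 2) : ℕ) : ℝ) := by
      have h2 : (z : ℝ) / ((Θ ^ (j + 2) : ℕ) : ℝ) < ((z / Θ ^ (j + 2) : ℕ) : ℝ) + 1 := by
        rw [div_lt_iff₀ hposr]
        have h3 := Nat.lt_mul_div_succ z hpos
        have h4 : ((z : ℕ) : ℝ) < ((Θ ^ (j + 2) * (z / Θ ^ (j + 2) + 1) : ℕ) : ℝ) := by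
          exact_mod_cast h3
        rw [Nat.cast_mul, Nat.cast_add, Nat.cast_one] at h4
        linarith
      have h5 : (1 : ℝ) ≤ (z : ℝ) / (2 * ((Θ ^ (j + 2) : ℕ) : ℝ)) := by
        rw [le_div_iff₀ (by positivity), one_mul]
        exact_mod_cast hz
      have h6 : τ ≤ 1 / (2 * ((Θ ^ (j + 2) : ℕ) : ℝ)) := by
        rw [le_div_iff₀ (by positivity)]
        push_cast
        exact hτ
      have h7 : (z : ℝ) * τ ≤ z * (1 / (2 * ((Θ ^ (j + 2) : ℕ) : ℝ))) :=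
        mul_le_mul_of_nonneg_left h6 (Nat.cast_nonneg _)
      have h8 : (z : ℝ) * (1 / (2 * ((Θ ^ (j + 2) : ℕ) : ℝ))) =
          (z : ℝ) / ((Θ ^ (j + 2) : ℕ) : ℝ) - (z : ℝ) / (2 * ((Θ ^ (j + 2) : ℕ) : ℝ)) := by
        field_simp
        ring
      linarith
    calc ((2 : ℝ) ^ z) ^ τ = (2 : ℝ) ^ ((z : ℝ) * τ) := by
          rw [← Real.rpow_natCast, ← Real.rpow_mul (by norm_num)]
      _ ≤ (2 : ℝ) ^ (((z / Θ ^ (j + 2) : ℕ) : ℝ)) :=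
          Real.rpow_le_rpow_of_exponent_le (by norm_num) h1
      _ = _ := by rw [Real.rpow_natCast]; push_cast; rfl
  · have h1 : z / Θ ^ (j + 2) = z / Θ ^ (j + 1) / Θ := by
      rw [Nat.div_div_eq_div_mul, ← pow_succ]
    rw [h1]
    exact Nat.div_mul_le_self _ _

end

end Pool.Agent.Helper57.NX3
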