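import Pool.Agent.Helper23.NX3.Cells
import Pool.Agent.Helper57.NX3.PatSize

/-!
# Project NX2, module C15: block lengths
-/

set_option autoImplicit false

open Finset
open scoped BigOperators

namespace Pool.Agent.Helper57.NX3

open Pool.Agent.Helper67.NX2 (IsN sh nform IG Ex PrA BlkLen Fm)

noncomputable section

/-- the lower bound on one window, in terms of the cell averages -/
theorem window_form {l s : ℕ} (c : Fin l → ℝ) [DecidablePred fun i : Fin l => IsN (c i)]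
    (d : Fin s → ℕ) (z K K' u T : ℕ) (A : Finset ℕ) (τ1 : ℝ) (hT : 0 < T)
    (v : {i : Fin l // ¬ IsN (c i)} → ℕ) (B : Fin l → ℕ) (b : Option (Fin s) → ℕ)
    (hPM : |nform d K u T (2 ^ z)
        (fun x => ∏ j : {i : Fin l // ¬ IsN (c i)}, AN (B j / 2) (FA z A) (x + v j))
        (fun _ => FA z A) - nform d K u T (2 ^ z)
        (fun x => ∏ j : {i : Fin l // ¬ IsN (c i)}, AN (B j / 2) (FA z A) (x + v j))
        (fun o => Fm (FA z A) K' (b o))| ≤ τ1 / 2)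
    (hMF : ∀ k ∈ Ico u (u + T), τ1 ≤ (∑ x ∈ range (2 ^ z),
      (∏ o : Option (Fin s), cd (FA z A) K' (b o) (x + sh d (K * k) o)) *
      ∏ j : {i : Fin l // ¬ IsN (c i)}, AN (B j / 2) (FA z A) (x + v j)) / 2 ^ z) :
    τ1 / 2 ≤ nform d K u T (2 ^ z)
        (fun x => ∏ j : {i : Fin l // ¬ IsN (c i)}, AN (B j / 2) (FA z A) (x + v j))
        (fun _ => FA z A) := by
  have h1 : τ1 ≤ nform d K u T (2 ^ z)
        (fun x => ∏ j : {i : Fin l // ¬ IsN (c i)}, AN (B j / 2) (FA z A) (x + v j))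
        (fun o => Fm (FA z A) K' (b o)) := by
    have hne : (Ico u (u + T)).Nonempty := by
      rw [Finset.nonempty_Ico]
      omega
    rw [← Finset.expect_const hne τ1]
    unfold nform
    refine Finset.expect_le_expect fun k hk => ?_
    refine (hMF k hk).trans (le_of_eq ?_)
    push_cast
    congr 1
    refine Finset.sum_congr rfl fun x _ => ?_
    rw [mul_comm]
    congr 1
    refine Finset.prod_congr rfl fun o _ => ?_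
    exact (Fm_eq_cd z A K' (b o) _).symm
  have h2 := (abs_le.mp hPM).1
  linarith

theorem Dβ_le {β1 β Θ : ℕ} (h : β1 * Θ ≤ β) {e : ℝ} (he : e ≤ Θ) :
    (((2 ^ β1 : ℕ)) : ℝ) ^ e ≤ (2 : ℝ) ^ β := by
  have h1 : (1 : ℝ) ≤ ((2 ^ β1 : ℕ) : ℝ) := by exact_mod_cast Nat.one_le_two_pow
  calc (((2 ^ β1 : ℕ)) : ℝ) ^ e ≤ (((2 ^ β1 : ℕ)) : ℝ) ^ ((Θ : ℕ) : ℝ) :=
        Real.rpow_le_rpow_of_exponent_le h1 he
    _ = (2 : ℝ) ^ (β1 * Θ) := by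
        rw [Real.rpow_natCast]
        push_cast
        rw [pow_mul]
    _ ≤ _ := pow_le_pow_right₀ (by norm_num) h

theorem Ke_le {D K : ℕ} {Γ : ℝ} (hK : 1 ≤ K) (hD0 : (0 : ℝ) < D) (hDK : 8 * (3 * K : ℝ) ^ Γ ≤ D)
    {e : ℝ} (he : e ≤ Γ) : (3 * K * D : ℝ) ^ e ≤ (D : ℝ) ^ (e + 1) / 8 := by
  have hKr : (1 : ℝ) ≤ K := by exact_mod_cast hK
  rw [Real.mul_rpow (by positivity) hD0.le, Real.rpow_add hD0, Real.rpow_one]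
  have h1 : (3 * K : ℝ) ^ e ≤ (3 * K : ℝ) ^ Γ :=
    Real.rpow_le_rpow_of_exponent_le (by linarith) he
  have h2 : 8 * (3 * K : ℝ) ^ e ≤ D := by linarith
  have h3 : (0 : ℝ) ≤ (D : ℝ) ^ e := by positivity
  nlinarith

theorem twoKe_le {D K : ℕ} {Γ : ℝ} (hK : 1 ≤ K) (hD0 : (0 : ℝ) < D)
    (hDK : 8 * (3 * K : ℝ) ^ Γ ≤ D)
    {e : ℝ} (he0 : 0 ≤ e) (he : e ≤ Γ) : (2 * K * D : ℝ) ^ e ≤ (D : ℝ) ^ (e + 1) / 8 := by
  refine le_trans (Real.rpow_le_rpow (by positivity) ?_ he0) (Ke_le hK hD0 hDK he)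
  have : (0 : ℝ) ≤ K * D := by positivity
  nlinarith

theorem floor_range {β1 β Θ : ℕ} (h : β1 * Θ ≤ β) {e : ℝ} (he1 : 1 ≤ e) (he : e ≤ Θ) :
    β1 ≤ ⌊(β1 : ℝ) * e⌋₊ ∧ ⌊(β1 : ℝ) * e⌋₊ ≤ β := by
  have h0 : (0 : ℝ) ≤ β1 := Nat.cast_nonneg _
  constructor
  · refine Nat.le_floor ?_
    nlinarith
  · refine Nat.floor_le_of_le ?_
    have h1 : ((β1 * Θ : ℕ) : ℝ) ≤ β := by exact_mod_cast h
    push_cast at h1
    nlinarith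

/-- block lengths at the natural positions -/
def bb {s : ℕ} (β1 : ℕ) (γ : ℝ) (d : Fin s → ℕ) (o : Option (Fin s)) : ℕ :=
  match o with
  | none => ⌊(β1 : ℝ) * (γ - 2 * (1 / 8))⌋₊
  | some i => ⌊(β1 : ℝ) * ((d i : ℝ) - 2 * (1 / 8))⌋₊

theorem bb_blk {s : ℕ} (β1 : ℕ) {γ : ℝ} (hγ : 2 ≤ γ) (d : Fin s → ℕ)
    (hd : ∀ i, (2 : ℝ) ≤ d i) : BlkLen d γ (1 / 8) (((2 ^ β1 : ℕ)) : ℝ) (bb β1 γ d) := by
  have hgen : ∀ e : ℝ, 0 ≤ e → (((2 ^ β1 : ℕ)) : ℝ) ^ e / 4 ≤ (2 : ℝ) ^ ⌊(β1 : ℝ) * e⌋₊ ∧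
      (2 : ℝ) ^ ⌊(β1 : ℝ) * e⌋₊ ≤ (((2 ^ β1 : ℕ)) : ℝ) ^ e := by
    intro e he
    have h1 := two_pow_floor β1 e he
    have h2 : (0 : ℝ) ≤ (((2 ^ β1 : ℕ)) : ℝ) ^ e := by positivity
    refine ⟨?_, h1.1⟩
    have h3 := h1.2
    linarith
  constructor
  · exact hgen _ (by linarith)
  · intro i
    exact hgen _ (by linarith [hd i])

theorem bb_range {s β1 β Θ : ℕ} (h : β1 * Θ ≤ β) {γ Γ : ℝ} (hγ : 2 ≤ γ) (hγΓ : γ ≤ Γ)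
    (d : Fin s → ℕ) (hd : ∀ i, (2 : ℝ) ≤ d i) (hdΓ : ∀ i, (d i : ℝ) ≤ Γ) (hΘ : Γ ≤ Θ)
    (o : Option (Fin s)) : β1 ≤ bb β1 γ d o ∧ bb β1 γ d o ≤ β := by
  rcases o with _ | i
  · exact floor_range h (by linarith) (by linarith)
  · exact floor_range h (by linarith [hd i]) (by linarith [hdΓ i])

/-- block lengths at the real positions -/
def BB {l : ℕ} (c : Fin l → ℝ) (β1 : ℕ) (xw : ℝ) (i : Fin l) : ℕ := by
  classical exact if IsN (c i) then 0 else 2 ^ ⌊(β1 : ℝ) * (c i - xw / 4)⌋₊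

section
variable {l : ℕ} {c : Fin l → ℝ} {β1 : ℕ} {xw : ℝ}

theorem BB_real {i : Fin l} (hi : ¬ IsN (c i)) :
    BB c β1 xw i = 2 ^ ⌊(β1 : ℝ) * (c i - xw / 4)⌋₊ := by
  classical
  unfold BB
  rw [if_neg hi]

theorem BB_le (hc : ∀ i, 2 ≤ c i) (hxw : xw ≤ 1) (i : Fin l) :
    (BB c β1 xw i : ℝ) ≤ (((2 ^ β1 : ℕ)) : ℝ) ^ (c i - xw / 4) := by
  classical
  by_cases hi : IsN (c i)
  · unfold BB
    rw [if_pos hi, Nat.cast_zero]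
    positivity
  · rw [BB_real hi]
    have h1 := (two_pow_floor β1 (c i - xw / 4) (by linarith [hc i])).1
    rw [Nat.cast_pow, Nat.cast_ofNat]
    exact h1

theorem BB_ge (hc : ∀ i, 2 ≤ c i) (hxw : xw ≤ 1) {i : Fin l} (hi : ¬ IsN (c i)) :
    (((2 ^ β1 : ℕ)) : ℝ) ^ (c i - xw / 4) / 2 ≤ BB c β1 xw i := by
  rw [BB_real hi]
  have h1 := (two_pow_floor β1 (c i - xw / 4) (by linarith [hc i])).2
  rw [Nat.cast_pow (2 : ℕ) ⌊(β1 : ℝ) * (c i - xw / 4)⌋₊, Nat.cast_ofNat]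
  exact h1

theorem BB_floor (hc : ∀ i, 2 ≤ c i) (hxw : xw ≤ 1) (hβ1 : 1 ≤ β1) (i : Fin l) :
    1 ≤ ⌊(β1 : ℝ) * (c i - xw / 4)⌋₊ := by
  rw [Nat.one_le_floor_iff]
  have h1 : (1 : ℝ) ≤ β1 := by exact_mod_cast hβ1
  have h2 : (1 : ℝ) ≤ c i - xw / 4 := by linarith [hc i]
  nlinarith

theorem BB_two (hc : ∀ i, 2 ≤ c i) (hxw : xw ≤ 1) (hβ1 : 1 ≤ β1) {i : Fin l}
    (hi : ¬ IsN (c i)) : 2 ≤ BB c β1 xw i := by
  rw [BB_real hi]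
  calc 2 = 2 ^ 1 := rfl
    _ ≤ _ := Nat.pow_le_pow_right (by norm_num) (BB_floor hc hxw hβ1 i)

theorem BB_half (hc : ∀ i, 2 ≤ c i) (hxw : xw ≤ 1) (hβ1 : 1 ≤ β1) {i : Fin l}
    (hi : ¬ IsN (c i)) : ((BB c β1 xw i / 2 : ℕ) : ℝ) = (BB c β1 xw i : ℝ) / 2 := by
  have h1 : 2 ∣ BB c β1 xw i := by
    rw [BB_real hi]
    exact dvd_pow_self 2 (by have := BB_floor hc hxw hβ1 i; omega)
  rw [Nat.cast_div h1 (by norm_num)]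
  norm_num

end

/-- the length of the windows -/
theorem window_len {β1 : ℕ} {xw : ℝ} (hxw : 0 < xw) (hxw1 : xw ≤ 1 / 8)
    (hD : (4 : ℝ) ≤ (((2 ^ β1 : ℕ)) : ℝ) ^ (xw / 8)) :
    ∃ T W : ℕ, 2 ^ β1 = T * W ∧ 0 < T ∧ (T : ℝ) ≤ (((2 ^ β1 : ℕ)) : ℝ) ^ (1 - xw / 2) ∧
      (((2 ^ β1 : ℕ)) : ℝ) ^ (1 - xw) ≤ T := by
  have hDr1 : (1 : ℝ) ≤ ((2 ^ β1 : ℕ) : ℝ) := by exact_mod_cast Nat.one_le_two_pow
  have hDr0 : (0 : ℝ) < ((2 ^ β1 : ℕ) : ℝ) := by linarith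
  set a' := ⌊(β1 : ℝ) * (1 - xw / 2)⌋₊ with ha'
  have hx01 : 0 ≤ 1 - xw / 2 := by linarith
  have ha'le : a' ≤ β1 := by
    rw [ha']
    refine Nat.floor_le_of_le ?_
    have : (0 : ℝ) ≤ β1 := Nat.cast_nonneg _
    nlinarith
  have hTf := two_pow_floor β1 (1 - xw / 2) hx01
  refine ⟨2 ^ a', 2 ^ (β1 - a'), ?_, by positivity, ?_, ?_⟩
  · rw [← pow_add]
    congr 1
    omega
  · rw [Nat.cast_pow 2 a', Nat.cast_ofNat]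
    exact hTf.1
  · have h1 : (((2 ^ β1 : ℕ)) : ℝ) ^ (1 - xw / 2) / 2 ≤ ((2 ^ a' : ℕ) : ℝ) := by
      rw [Nat.cast_pow 2 a', Nat.cast_ofNat]
      exact hTf.2
    refine le_trans ?_ h1
    rw [le_div_iff₀ (by norm_num)]
    have h2 : (((2 ^ β1 : ℕ)) : ℝ) ^ (1 - xw / 2) =
        (((2 ^ β1 : ℕ)) : ℝ) ^ (1 - xw) * (((2 ^ β1 : ℕ)) : ℝ) ^ (xw / 2) := by
      rw [← Real.rpow_add hDr0]
      congr 1
      ring
    rw [h2]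
    refine mul_le_mul_of_nonneg_left ?_ (by positivity)
    calc (2 : ℝ) ≤ 4 := by norm_num
      _ ≤ (((2 ^ β1 : ℕ)) : ℝ) ^ (xw / 8) := hD
      _ ≤ _ := Real.rpow_le_rpow_of_exponent_le hDr1 (by linarith)

end

end Pool.Agent.Helper57.NX3
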