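import Pool.Agent.Helper57.NX3.PatStep
import Pool.Agent.Helper53.NX3.Upper
import Pool.Agent.Helper61.NX.Pattern

/-!
# Project NX2, module C15, part 5: the upper bound without patterns
-/

set_option autoImplicit false

open Finset
open scoped BigOperators

namespace Pool.Agent.Helper57.NX3

open Pool.Agent.Helper57.NX (ind ind_nonneg gA g0A AR Sys Good form formR Adm ES0 g0A_nonneg
  gA_nonneg gA_le_one g0A_adm gA_adm form_ofReal A_ofReal expect_zmod_real frac_ok)
open Pool.Agent.Helper67.NX2 (IsN sh nform IG Ex PrA BlkLen Fm)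

noncomputable section

/-- upper bound for the form, when there is no pattern -/
theorem upper_form {l : ℕ} (c : Fin l → ℝ) (hc : ∀ i, 0 < c i) (z : ℕ) (A : Finset ℕ) (hA : PS z A)
    (K D N : ℕ) [NeZero N] (hD : 1 ≤ D) (η Cs : ℝ)
    (hN : D ^ 2 * (2 * 2 ^ z) ≤ N) (hη0 : 0 ≤ η) (hQη : 1 ≤ η * (D : ℝ) ^ 2)
    (hsz : ∀ i, ((2 * K * D : ℕ) : ℝ) ^ c i ≤ (2 : ℝ) ^ z)
    (bad : Finset ℕ) (hbad : (bad.card : ℝ) ≤ 2 * Cs * η * D)
    (hgood : ∀ k ∈ Ico D (D + D), k ∉ bad → ∀ i, Int.fract (((K * k : ℕ) : ℝ) ^ c i) < 1 - η)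
    (hno : ∀ k ∈ Ico D (D + D), ∀ p ∈ A, ¬ ∀ i, p + ⌊((K * k : ℕ) : ℝ) ^ c i⌋₊ ∈ A) :
    formR (N := N) (SK D K c) c (g0A A (D ^ 2) η) (fun _ => gA A (D ^ 2)) ≤ 2 * Cs * η * η := by
  classical
  set Q := D ^ 2 with hQ
  have hQ0 : 0 < Q := by positivity
  have hQr0 : (0 : ℝ) < Q := by exact_mod_cast hQ0
  have hQr : (Q : ℝ) = (D : ℝ) ^ 2 := by rw [hQ]; push_cast; rfl
  have hDr0 : (0 : ℝ) < D := by exact_mod_cast hD
  have hN0 : (0 : ℝ) < N := by exact_mod_cast NeZero.pos N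
  have haK : ∀ i, ∀ k, k < D + D → aK Q K (c i) k ≤ Q * 2 ^ z := by
    intro i k hk
    have h1 : (aK Q K (c i) k : ℝ) ≤ Q * ((K * k : ℕ) : ℝ) ^ c i := Nat.floor_le (by positivity)
    have h2 : ((K * k : ℕ) : ℝ) ^ c i ≤ ((2 * K * D : ℕ) : ℝ) ^ c i := by
      refine Real.rpow_le_rpow (Nat.cast_nonneg _) ?_ (hc i).le
      have : K * k ≤ 2 * K * D := by
        calc K * k ≤ K * (2 * D) := Nat.mul_le_mul_left K (by omega)
          _ = 2 * K * D := by ring
      exact_mod_cast this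
    have h3 : ((aK Q K (c i) k : ℕ) : ℝ) ≤ ((Q * 2 ^ z : ℕ) : ℝ) := by
      push_cast
      exact h1.trans (mul_le_mul_of_nonneg_left (h2.trans (hsz i)) hQr0.le)
    exact_mod_cast h3
  have hup_k : ∀ k ∈ Ico D (D + D), 𝔼 y : ZMod N, g0A A Q η y *
        ∏ i : Fin l, gA A Q (y + ((SK D K c).a c i k : ZMod N)) ≤
        if k ∈ bad then η else 0 := by
    intro k hk
    have hk' := Finset.mem_Ico.mp hk
    rw [expect_zmod_real]
    have haS : ∀ i, (((SK D K c).a c i k : ℤ) : ZMod N) = ((aK Q K (c i) k : ℕ) : ZMod N) := by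
      intro i
      rw [SK_a hD K c i k]
      push_cast
      rfl
    simp_rw [haS]
    rw [div_le_iff₀ hN0]
    split_ifs with hkb
    · have h1 : ∑ y : ZMod N, g0A A Q η y *
          ∏ i : Fin l, gA A Q (y + (aK Q K (c i) k : ZMod N)) ≤
          ∑ y : ZMod N, g0A A Q η y := by
        refine Finset.sum_le_sum fun y _ => ?_
        refine mul_le_of_le_one_right (g0A_nonneg _ _ _ _) ?_
        exact Finset.prod_le_one (fun i _ => gA_nonneg _ _ _) fun i _ => gA_le_one _ _ _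
      refine h1.trans ((g0_sum_mixed A Q (2 ^ z) N η hQ0 (fun p hp => (hA p hp).2) hη0).trans ?_)
      have h2 : ((Q * (2 * 2 ^ z) : ℕ) : ℝ) ≤ N := by exact_mod_cast hN
      push_cast at h2 ⊢
      calc (2 : ℝ) ^ z * (η * Q + 1) ≤ (2 : ℝ) ^ z * (η * Q + η * Q) := by
            refine mul_le_mul_of_nonneg_left ?_ (by positivity)
            rw [hQr]
            linarith
        _ = η * (Q * (2 * 2 ^ z)) := by ring
        _ ≤ _ := mul_le_mul_of_nonneg_left h2 hη0
    · have h1 := upper_mixed A Q (2 ^ z) N η hQ0 hN (fun p hp => (hA p hp).2)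
        (fun i : Fin l => aK Q K (c i) k) (fun i => haK i k hk'.2) (by
          intro e _ he' p hp hall
          refine hno k hk p hp fun i => ?_
          have h2 := hgood k hk hkb i
          have h4 := frac_ok hQ0 (x := ((K * k : ℕ) : ℝ) ^ (c i)) (by positivity) h2 he'
          rw [← h4]
          exact hall i)
      rw [h1, zero_mul]
  have h1 : formR (N := N) (SK D K c) c (g0A A Q η) (fun _ => gA A Q) ≤
      𝔼 k ∈ Ico D (D + D), if k ∈ bad then η else 0 :=
    Finset.expect_le_expect fun k hk => hup_k k hk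
  refine h1.trans ?_
  rw [Finset.expect_eq_sum_div_card, Nat.card_Ico, Nat.add_sub_cancel,
    div_le_iff₀ hDr0, ← Finset.sum_filter, Finset.sum_const, nsmul_eq_mul]
  have h2 : (((Ico D (D + D)).filter fun k => k ∈ bad).card : ℝ) ≤ bad.card := by
    have : (Ico D (D + D)).filter (fun k => k ∈ bad) ⊆ bad := fun k hk =>
      (Finset.mem_filter.mp hk).2
    exact_mod_cast Finset.card_le_card this
  calc (((Ico D (D + D)).filter fun k => k ∈ bad).card : ℝ) * η ≤ (2 * Cs * η * D) * η :=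
        mul_le_mul_of_nonneg_right (h2.trans hbad) hη0
    _ = _ := by ring

end

end Pool.Agent.Helper57.NX3
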