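import Pool.Agent.Helper57.NX3.PatHwin
import Pool.Agent.Helper57.NX3.PatUp

/-!
# Project NX2, module C15, part 6: one step of the chain of scales
-/

set_option autoImplicit false

open Finset
open scoped BigOperators

namespace Pool.Agent.Helper57.NX3

open Pool.Agent.Helper57.NX (ind ind_nonneg gA g0A AR Sys Good form formR Adm ES0 g0A_nonneg
  gA_nonneg gA_le_one g0A_adm gA_adm form_ofReal A_ofReal expect_zmod_real frac_ok exists_pos_lb)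
open Pool.Agent.Helper67.NX2 (IsN sh nform IG Ex PrA BlkLen Fm)

noncomputable section

theorem step_pattern {l s : ℕ} (c : Fin (l + 1) → ℝ) (hc : Ex c)
    (hc0 : ∀ i, c 0 ≤ c i) (d : Fin s → ℕ)
    (em : Fin s → Fin (l + 1)) (hem : Function.Injective em) (hd : ∀ j, c (em j) = d j)
    (hall : ∀ i, IsN (c i) → ∃ j, em j = i)
    (K K' : ℕ) (hK : 1 ≤ K) (hK' : 1 ≤ K') (hKK : K ∣ K')
    (hpf : K'.primeFactors = K.primeFactors)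
    (xw : ℝ) (hxw : 0 < xw) (hxw1 : xw ≤ 1 / 8)
    (τ V τ1 κ δ1 : ℝ) (hτ : 0 < τ) (hτ1 : 0 < τ1)
    (Θ j : ℕ) (hΘ2 : 2 ≤ Θ) (Γ : ℝ) (hΓ0 : 0 ≤ Γ) (hΓ : ∀ i, c i ≤ Γ) (hΘ : Γ + 3 ≤ Θ)
    (hτΘ : τ * (2 * Θ ^ (j + 2)) ≤ 1) (N0 : ℕ)
    (x0 σ1 D1 : ℝ) (hx0 : 0 < x0) (hσ1 : 0 < σ1)
    (hFR : ∀ (S : Sys (l + 1)) (N : ℕ) [NeZero N], D1 ≤ S.D → IG S c N x0 K →
      ∀ (f0 : ZMod N → ℂ) (f : Fin (l + 1) → ZMod N → ℂ), Adm 8 S.Q f0 → (∀ i, Adm 8 S.Q (f i)) →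
      ∀ L : Fin (l + 1) → ℕ, (∀ i, 1 ≤ L i ∧ (L i : ℝ) ≤ S.P i * S.D ^ (-(xw / 8))) →
      ‖form S c 1 f0 f - form S c 1 f0 (fun i x => (open scoped Classical in
        if IsN (c i) then f i x else NX.A (L i) (f i) x))‖ ≤ S.D ^ (-σ1))
    (σ2 : ℝ) (hσ2 : 0 < σ2) (Cf D2 : ℝ) (hCf : 0 ≤ Cf)
    (hfrac : ∀ i, ¬ IsN (c i) → ∀ D : ℕ, D2 ≤ D → ∀ η : ℝ, 0 < η → η ≤ 1 →
      (#((Ico D (D + D)).filter fun k : ℕ => 1 - η ≤ Int.fract (((K * k : ℕ) : ℝ) ^ c i)) : ℝ) ≤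
        Cf * (η + (D : ℝ) ^ (-σ2)) * D)
    (D3 : ℝ) (hfreeze : ∀ i, ∀ (D u T Q B : ℕ), D3 ≤ D → D ≤ u → u + T ≤ 2 * D →
      (T : ℝ) ≤ (D : ℝ) ^ (1 - xw / 2) →
      1 ≤ Q → (D : ℝ) ^ (c i - xw / 2 / 2) / 4 ≤ B → ∃ v : ℕ, (v : ℝ) ≤ (2 * K * D : ℝ) ^ c i + 3 ∧
      ∀ k ∈ Ico u (u + T), ∀ e < Q, (e + ⌊(Q : ℝ) * ((K * k : ℕ) : ℝ) ^ c i⌋₊) / Q + 1 ≤ v ∧
        v + B / 2 ≤ (e + ⌊(Q : ℝ) * ((K * k : ℕ) : ℝ) ^ c i⌋₊) / Q + 1 + B)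
    (z1 : ℕ) (hPM : ∀ z : ℕ, z1 ≤ z → ∀ A : Finset ℕ, PrA z A → ∀ (D : ℝ) (u T : ℕ),
      (2 : ℝ) ^ (τ * z) ≤ D → (∀ i, ((K : ℝ) * (3 * D)) ^ (d i) ≤ (2 : ℝ) ^ z) →
      D ≤ u → (u : ℝ) + T ≤ 2 * D → D ^ (1 - xw) ≤ T →
      ∀ G : ℕ → ℝ, (∀ x, |G x| ≤ V) →
      (∀ x t : ℕ, |G (x + t) - G x| ≤ V * t / D ^ (c 0 - 1 / 8)) →
      ∀ b : Option (Fin s) → ℕ, BlkLen d (c 0) (1 / 8) D b →
      |nform d K u T (2 ^ z) G (fun _ => FA z A) -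
        nform d K u T (2 ^ z) G (fun o => Fm (FA z A) K' (b o))| ≤ τ1 / 2)
    (z2 : ℕ) (hAN : (open scoped Classical in ∀ z : ℕ, z2 ≤ z → ∀ A : Finset ℕ, PS z A →
      ∀ D : ℝ, ((2 : ℝ) ^ z) ^ τ ≤ D → ∀ L w : {i : Fin (l + 1) // ¬ IsN (c i)} → ℕ,
      (∀ j, D ^ (c 0 - xw / 4) / 8 ≤ L j) →
      (∀ x, |∏ j, AN (L j) (FA z A) (x + w j)| ≤ V) ∧
      ∀ x t : ℕ, |(∏ j, AN (L j) (FA z A) (x + t + w j)) - ∏ j, AN (L j) (FA z A) (x + w j)| ≤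
        V * t / D ^ (c 0 - 1 / 8)))
    (z3 : ℕ) (hMF : (open scoped Classical in ∀ z : ℕ, z3 ≤ z →
      ∀ A : Finset ℕ, PS z A → δ1 * ((2 : ℝ) ^ z / Real.log ((2 : ℝ) ^ z)) ≤ A.card →
      ∀ β β1 : ℕ, β1 ≤ β → β ≤ z → ((2 : ℝ) ^ z) ^ (τ / 2) ≤ 2 ^ β1 →
      En z A K' β1 + En z A 1 β1 ≤ En z A K β + En z A 1 β + κ →
      ∀ b v : Option (Fin s) → ℕ, (∀ i, β1 ≤ b i ∧ b i ≤ β ∧ K ∣ v i ∧
        (v i : ℝ) * ((2 : ℝ) ^ z) ^ (τ / 2) ≤ 2 ^ β) →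
      ∀ L w : {i : Fin (l + 1) // ¬ IsN (c i)} → ℕ,
      (∀ j, (w j : ℝ) * ((2 : ℝ) ^ z) ^ (τ / 2) ≤ 2 ^ β ∧
        (L j : ℝ) * ((2 : ℝ) ^ z) ^ (τ / 2) ≤ 2 ^ β ∧ 2 ^ β1 * ((2 : ℝ) ^ z) ^ (τ / 2) ≤ L j) →
      τ1 ≤ (∑ x ∈ range (2 ^ z), (∏ i, cd (FA z A) K' (b i) (x + v i)) *
        ∏ j, AN (L j) (FA z A) (x + w j)) / 2 ^ z)) :
    ∃ z0 : ℕ, ∀ z : ℕ, z0 ≤ z → ∀ A : Finset ℕ, PrA z A →
    δ1 * ((2 : ℝ) ^ z / Real.log ((2 : ℝ) ^ z)) ≤ A.card →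
    En z A K' (z / Θ ^ (j + 2)) + En z A 1 (z / Θ ^ (j + 2)) ≤
      En z A K (z / Θ ^ (j + 1)) + En z A 1 (z / Θ ^ (j + 1)) + κ →
    ∃ m ∈ A, ∃ n : ℕ, N0 ≤ n ∧ ∀ i, m + ⌊(n : ℝ) ^ c i⌋₊ ∈ A := by
  classical
  set σ := min σ1 (min σ2 1) with hσdef
  have hσ : 0 < σ := lt_min hσ1 (lt_min hσ2 one_pos)
  have hσ1' : σ ≤ σ1 := min_le_left _ _
  have hσ2' : σ ≤ σ2 := (min_le_right _ _).trans (min_le_left _ _)
  have hσle : σ ≤ 1 := (min_le_right _ _).trans (min_le_right _ _)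
  set τ3 := τ1 / 2 / 4 ^ (l + 1 + 1) with hτ3
  have hτ30 : 0 < τ3 := by positivity
  set Cs : ℝ := ((l + 1 : ℕ) : ℝ) * Cf with hCs
  have hCs0 : 0 ≤ Cs := by positivity
  set c1 := min (1 / 2) (τ3 / (4 * Cs + 4)) with hc1
  have hc10 : 0 < c1 := lt_min (by norm_num) (by positivity)
  have hc11 : c1 ≤ 1 / 2 := min_le_left _ _
  have hc1τ : 2 * Cs * c1 ≤ τ3 / 2 := by
    have h1 : c1 ≤ τ3 / (4 * Cs + 4) := min_le_right _ _
    rw [le_div_iff₀ (by positivity)] at h1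
    nlinarith
  have hKr : (1 : ℝ) ≤ K := by exact_mod_cast hK
  have hK0 : (0 : ℝ) < K := by linarith
  set CK : ℝ := 8 * (3 * K : ℝ) ^ Γ + N0 + |D1| + |D2| + |D3| + 64 with hCK
  have h3K1 : (1 : ℝ) ≤ (3 * K : ℝ) ^ Γ := Real.one_le_rpow (by linarith) hΓ0
  obtain ⟨za, hza⟩ := size_ev τ 1 hτ one_pos 0 CK
  obtain ⟨zb, hzb⟩ := size_ev τ (xw / 8) hτ (by positivity) 0 4
  obtain ⟨zc, hzc⟩ := size_ev τ x0 hτ hx0 0 ((3 * K : ℝ) ^ Γ)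
  obtain ⟨zd, hzd⟩ := size_ev τ σ hτ hσ (2 * (l + 1) + 3) 0
  refine ⟨max z1 (max z2 (max z3 (max za (max zb (max zc (max zd (max (2 * Θ ^ (j + 2))
    (max 2 (⌈2 / (c1 * τ3)⌉₊ + ⌈1 / c1⌉₊ + 1))))))))), ?_⟩
  intro z hz A hA hcard hEn
  simp only [max_le_iff] at hz
  obtain ⟨hz1, hz2, hz3, hza', hzb', hzc', hzd', hzΘ, hz2', hzt⟩ := hz
  have hPSA : PS z A := fun p hp => ⟨(hA p hp).1, (hA p hp).2.1⟩
  by_contra hno
  push Not at hno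
  -- scales
  obtain ⟨hsc1, hsc2, hsc3⟩ := scale_facts Θ j z τ hΘ2 hτΘ hzΘ
  set β1 := z / Θ ^ (j + 2) with hβ1
  set β := z / Θ ^ (j + 1) with hβ
  set D : ℕ := 2 ^ β1 with hD
  have hDτ0 : (0 : ℝ) ≤ ((2 : ℝ) ^ z) ^ τ := by positivity
  have hmono : ∀ e : ℝ, 0 ≤ e → (((2 : ℝ) ^ z) ^ τ) ^ e ≤ (D : ℝ) ^ e := fun e he =>
    Real.rpow_le_rpow hDτ0 hsc1 he
  have hDCK : CK ≤ D := by
    have h1 := (hza z hza').1.trans (hmono 1 zero_le_one)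
    rwa [Real.rpow_one] at h1
  have hDxw : (4 : ℝ) ≤ (D : ℝ) ^ (xw / 8) := (hzb z hzb').1.trans (hmono _ (by positivity))
  have hDx0 : (3 * K : ℝ) ^ Γ ≤ (D : ℝ) ^ x0 := (hzc z hzc').1.trans (hmono _ hx0.le)
  have hD64 : (64 : ℝ) ≤ D := by
    have h1 : (0 : ℝ) ≤ (N0 : ℝ) := Nat.cast_nonneg _
    have := abs_nonneg D1
    have := abs_nonneg D2
    have := abs_nonneg D3
    linarith
  have hDr1 : (1 : ℝ) ≤ D := by linarith
  have hDr0 : (0 : ℝ) < D := by linarith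
  have hD2n : 2 ≤ D := by
    have : (2 : ℝ) ≤ D := by linarith
    exact_mod_cast this
  have hD1n : 1 ≤ D := by omega
  have hDK : 8 * (3 * K : ℝ) ^ Γ ≤ D := by
    have h1 : (0 : ℝ) ≤ (N0 : ℝ) := Nat.cast_nonneg _
    have := abs_nonneg D1
    have := abs_nonneg D2
    have := abs_nonneg D3
    linarith
  have hDN0 : N0 ≤ D := by
    have h1 : (N0 : ℝ) ≤ D := by
      have := abs_nonneg D1
      have := abs_nonneg D2
      have := abs_nonneg D3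
      linarith
    exact_mod_cast h1
  have hDD1 : D1 ≤ D := by
    have h1 : (0 : ℝ) ≤ (N0 : ℝ) := Nat.cast_nonneg _
    have := le_abs_self D1
    have := abs_nonneg D2
    have := abs_nonneg D3
    linarith
  have hDD2 : D2 ≤ D := by
    have h1 : (0 : ℝ) ≤ (N0 : ℝ) := Nat.cast_nonneg _
    have := abs_nonneg D1
    have := le_abs_self D2
    have := abs_nonneg D3
    linarith
  have hDD3 : D3 ≤ D := by
    have h1 : (0 : ℝ) ≤ (N0 : ℝ) := Nat.cast_nonneg _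
    have := abs_nonneg D1
    have := abs_nonneg D2
    have := le_abs_self D3
    linarith
  have hβ1pos : 1 ≤ β1 := by
    rcases Nat.eq_zero_or_pos β1 with h1 | h1
    · rw [hD, h1] at hD2n
      norm_num at hD2n
    · exact h1
  -- exponents
  have hc2 : ∀ i, 2 ≤ c i := hc.two
  have hcpos : ∀ i, 0 < c i := fun i => by linarith [hc2 i]
  have hz0 : (0 : ℝ) < z := by
    have : (2 : ℝ) ≤ z := by exact_mod_cast hz2'
    linarith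
  have hβz : (2 : ℝ) ^ β ≤ (2 : ℝ) ^ z := pow_le_pow_right₀ (by norm_num) hsc3
  have hθ : ((2 : ℝ) ^ z) ^ (τ / 2) ≤ (D : ℝ) ^ (1 / 2 : ℝ) := by
    have h1 := hmono (1 / 2) (by norm_num)
    rw [← Real.rpow_mul (by positivity)] at h1
    have h2 : τ * (1 / 2) = τ / 2 := by ring
    rwa [h2] at h1
  have hd2 : ∀ i, (2 : ℝ) ≤ d i := fun i => by rw [← hd i]; exact hc2 _
  have hdΓ : ∀ i, (d i : ℝ) ≤ Γ := fun i => by rw [← hd i]; exact hΓ _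
  set B : Fin (l + 1) → ℕ := BB c β1 xw with hB
  have hB2 : ∀ i, ¬ IsN (c i) → 2 ≤ B i := fun i hi =>
    BB_two hc2 (by linarith) hβ1pos hi
  have hBle : ∀ i, (B i : ℝ) ≤ (D : ℝ) ^ (c i - xw / 4) := fun i =>
    BB_le (β1 := β1) (xw := xw) hc2 (by linarith) i
  -- the modulus
  obtain ⟨P, hP, hP1, hP2⟩ := Nat.exists_prime_lt_and_le_two_mul (2 * 2 ^ z) (by positivity)
  have hNz : NeZero (D ^ 2 * P) := ⟨by have := hP.pos; positivity⟩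
  have hN1 : D ^ 2 * (2 * 2 ^ z) ≤ D ^ 2 * P := Nat.mul_le_mul_left _ hP1.le
  have hN2 : D ^ 2 * P ≤ D ^ 2 * (4 * 2 ^ z) := by
    refine Nat.mul_le_mul_left _ (hP2.trans (le_of_eq ?_))
    ring
  have hsz : ∀ i, ((2 * K * D : ℕ) : ℝ) ^ c i + B i + 1 ≤ (2 : ℝ) ^ z := by
    intro i
    have h1 : ((2 * K * D : ℕ) : ℝ) ^ c i ≤ (D : ℝ) ^ (c i + 1) / 8 := by
      have := twoKe_le hK hDr0 hDK (hcpos i).le (hΓ i)
      push_cast
      exact this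
    have h2 : (D : ℝ) ^ (c i - xw / 4) ≤ (D : ℝ) ^ (c i) :=
      Real.rpow_le_rpow_of_exponent_le hDr1 (by linarith)
    have h3 : (D : ℝ) ^ (c i) * 64 ≤ (D : ℝ) ^ (c i + 1) := by
      rw [Real.rpow_add hDr0, Real.rpow_one]
      exact mul_le_mul_of_nonneg_left hD64 (by positivity)
    have h4 : (64 : ℝ) ≤ (D : ℝ) ^ (c i + 1) := by
      calc (64 : ℝ) ≤ D := hD64
        _ = (D : ℝ) ^ (1 : ℝ) := (Real.rpow_one _).symm
        _ ≤ _ := Real.rpow_le_rpow_of_exponent_le hDr1 (by linarith [hcpos i])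
    have h5 : (D : ℝ) ^ (c i + 1) ≤ (2 : ℝ) ^ z :=
      (Dβ_le hsc2 (by linarith [hΓ i])).trans hβz
    have h6 := hBle i
    linarith
  have hsz' : ∀ i, ((2 * K * D : ℕ) : ℝ) ^ c i ≤ (2 : ℝ) ^ z := by
    intro i
    have h1 := hsz i
    have h2 : (0 : ℝ) ≤ B i := Nat.cast_nonneg _
    linarith
  -- windows
  obtain ⟨T, W, hDTW, hTpos, hTup, hTlow⟩ := window_len hxw hxw1 hDxw
  have hwin := all_windows c hc2 hc0 d hd2 K K' hK xw hxw hxw1 τ V τ1 κ δ1 z Θ β1 β hΘ2 Γ hΓ hdΓ hΘ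
    A D hD hD64 hDK hDxw hβ1pos hsc2 hsc3 hsc1 hθ
    (fun i u T Q B => hfreeze i D u T Q B hDD3) (hPM z hz1 A hA) (hAN z hz2 A hPSA) hcard hEn
    (hMF z hz3 A hPSA) T W hDTW hTpos hTup hTlow
  -- sizes of ζ and η
  set ζ := (z : ℝ)⁻¹ with hζ
  have hζ0 : 0 < ζ := by positivity
  have hz1r : (1 : ℝ) ≤ z := by exact_mod_cast (by omega : 1 ≤ z)
  have hζ1 : ζ ≤ 1 := inv_le_one_of_one_le₀ hz1r
  have hztr : 2 / (c1 * τ3) + 1 / c1 < z := by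
    have h1 : 2 / (c1 * τ3) ≤ ⌈2 / (c1 * τ3)⌉₊ := Nat.le_ceil _
    have h2 : 1 / c1 ≤ ⌈1 / c1⌉₊ := Nat.le_ceil _
    have h3 : ((⌈2 / (c1 * τ3)⌉₊ + ⌈1 / c1⌉₊ + 1 : ℕ) : ℝ) ≤ z := by exact_mod_cast hzt
    push_cast at h3
    linarith
  have hζc : ζ ≤ c1 := by
    have h1 : 1 / c1 ≤ (z : ℝ) := by
      have : 0 < 2 / (c1 * τ3) := by positivity
      linarith
    rw [hζ, inv_le_comm₀ hz0 hc10, ← one_div]
    exact h1
  have hζt : ζ < c1 * τ3 / 2 := by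
    have h5 : 2 / (c1 * τ3) < z := by
      have : 0 < 1 / c1 := by positivity
      linarith
    rw [div_lt_iff₀ (by positivity)] at h5
    rw [hζ, inv_lt_iff_one_lt_mul₀ hz0]
    linarith
  have hDσ : ∀ σ', σ ≤ σ' → (D : ℝ) ^ (-σ') ≤ ζ ^ (2 * (l + 1) + 3) := by
    intro σ' hσ'
    calc (D : ℝ) ^ (-σ') ≤ (D : ℝ) ^ (-σ) := Real.rpow_le_rpow_of_exponent_le hDr1 (by linarith)
      _ ≤ (((2 : ℝ) ^ z) ^ τ) ^ (-σ) := by
          rw [Real.rpow_neg hDr0.le, Real.rpow_neg hDτ0]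
          exact inv_anti₀ (by positivity) (hmono σ hσ.le)
      _ ≤ _ := (hzd z hzd').2
  set η := c1 * ζ ^ (l + 1 + 1) with hη
  have hη0 : 0 < η := by positivity
  have hη12 : η ≤ 1 / 2 := by
    have : ζ ^ (l + 1 + 1) ≤ 1 := pow_le_one₀ hζ0.le hζ1
    calc η ≤ 1 / 2 * 1 := mul_le_mul hc11 this (by positivity) (by norm_num)
      _ = 1 / 2 := mul_one _
  have hη1 : η ≤ 1 := by linarith
  have hζη : ζ ^ (2 * (l + 1) + 3) ≤ η := by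
    calc ζ ^ (2 * (l + 1) + 3) ≤ ζ ^ (l + 1 + 2) := pow_le_pow_of_le_one hζ0.le hζ1 (by omega)
      _ = ζ * ζ ^ (l + 1 + 1) := by ring
      _ ≤ c1 * ζ ^ (l + 1 + 1) := mul_le_mul_of_nonneg_right hζc (by positivity)
  have hQη : 1 ≤ η * (D : ℝ) ^ 2 := by
    have h1 : (D : ℝ) ^ (-σ) ≤ η := (hDσ σ le_rfl).trans hζη
    have h2 : (1 : ℝ) ≤ (D : ℝ) ^ (-σ) * (D : ℝ) ^ (2 : ℝ) := by
      rw [← Real.rpow_add hDr0]
      exact Real.one_le_rpow hDr1 (by linarith)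
    rw [Real.rpow_two] at h2
    exact h2.trans (mul_le_mul_of_nonneg_right h1 (by positivity))
  -- lower bound
  have hlow := lower_form c hcpos d em hem hd hall z (by omega) A hPSA K D T W (D ^ 2 * P) hDTW
    hTpos hD1n η (τ1 / 2) (by positivity) hN1 hN2 hη0.le hη1 B hB2 hsz hwin
  have hlog : Real.log ((2 : ℝ) ^ z) = z * Real.log 2 := Real.log_pow _ _
  have hlog2 : 0 < Real.log 2 := Real.log_pos (by norm_num)
  have hlogz : 0 < Real.log ((2 : ℝ) ^ z) := by rw [hlog]; positivity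
  have hlogle : Real.log ((2 : ℝ) ^ z) ≤ z := by
    rw [hlog]
    have : Real.log 2 ≤ 1 := by linarith [Real.log_two_lt_d9]
    nlinarith
  have hlow' : τ3 * (c1 * ζ ^ (l + 1 + 1)) * ζ ^ (l + 1 + 1) ≤
      formR (N := D ^ 2 * P) (SK D K c) c (g0A A (D ^ 2) η) (gm c A (D ^ 2) B) := by
    refine le_trans ?_ hlow
    have h1 : ζ ^ (l + 1 + 1) * Real.log ((2 : ℝ) ^ z) ^ (l + 1 + 1) ≤ 1 := by
      rw [← mul_pow]
      refine pow_le_one₀ (by positivity) ?_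
      rw [hζ, inv_mul_le_iff₀ hz0, mul_one]
      exact hlogle
    have h2 : (1 : ℝ) * ζ ^ (l + 1 + 1) ≤ 1 / Real.log ((2 : ℝ) ^ z) ^ (l + 1 + 1) := by
      rw [one_mul, le_div_iff₀ (by positivity)]
      exact h1
    calc τ3 * (c1 * ζ ^ (l + 1 + 1)) * ζ ^ (l + 1 + 1)
        = η * (τ1 / 2) / 4 ^ (l + 1 + 1) * (1 * ζ ^ (l + 1 + 1)) := by
          rw [hτ3, hη]
          ring
      _ ≤ η * (τ1 / 2) / 4 ^ (l + 1 + 1) * (1 / Real.log ((2 : ℝ) ^ z) ^ (l + 1 + 1)) :=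
          mul_le_mul_of_nonneg_left h2 (by positivity)
      _ = η * (τ1 / 2) / (4 ^ (l + 1 + 1) * Real.log ((2 : ℝ) ^ z) ^ (l + 1 + 1)) := by
          field_simp
  -- upper bound
  set bad : Finset ℕ := univ.biUnion fun i : Fin (l + 1) =>
    (Ico D (D + D)).filter fun k : ℕ => 1 - η ≤ Int.fract (((K * k : ℕ) : ℝ) ^ (c i)) with hbad
  have hfrN : ∀ i, IsN (c i) → ∀ k : ℕ, Int.fract (((K * k : ℕ) : ℝ) ^ (c i)) = 0 := by
    rintro i ⟨n, hn⟩ k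
    rw [hn, Real.rpow_natCast, ← Nat.cast_pow, Int.fract_natCast]
  have hbadcard : (bad.card : ℝ) ≤ 2 * Cs * η * D := by
    have h1 : (bad.card : ℝ) ≤ ∑ i, (#((Ico D (D + D)).filter fun k : ℕ =>
        1 - η ≤ Int.fract (((K * k : ℕ) : ℝ) ^ (c i))) : ℝ) := by
      exact_mod_cast Finset.card_biUnion_le
    refine h1.trans ?_
    have h2 : ∀ i, (#((Ico D (D + D)).filter fun k : ℕ =>
        1 - η ≤ Int.fract (((K * k : ℕ) : ℝ) ^ (c i))) : ℝ) ≤ Cf * (2 * η) * D := by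
      intro i
      by_cases hi : IsN (c i)
      · have h3 : (Ico D (D + D)).filter (fun k : ℕ =>
            1 - η ≤ Int.fract (((K * k : ℕ) : ℝ) ^ (c i))) = ∅ := by
          rw [Finset.filter_eq_empty_iff]
          intro k _
          rw [hfrN i hi k]
          linarith
        rw [h3, Finset.card_empty, Nat.cast_zero]
        positivity
      · refine (hfrac i hi D hDD2 η hη0 hη1).trans ?_
        have h4 := (hDσ σ2 hσ2').trans hζη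
        gcongr
        linarith
    calc ∑ i, (#((Ico D (D + D)).filter fun k : ℕ =>
        1 - η ≤ Int.fract (((K * k : ℕ) : ℝ) ^ (c i))) : ℝ) ≤
          ∑ _i : Fin (l + 1), Cf * (2 * η) * D := Finset.sum_le_sum fun i _ => h2 i
      _ = 2 * Cs * η * D := by
          rw [Finset.sum_const, Finset.card_univ, Fintype.card_fin, nsmul_eq_mul, hCs]
          ring
  have hup := upper_form c hcpos z A hPSA K D (D ^ 2 * P) hD1n η Cs hN1 hη0.le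
    hQη hsz' bad hbadcard (by
      intro k hk hkb i
      by_contra h3
      push Not at h3
      apply hkb
      rw [hbad, Finset.mem_biUnion]
      exact ⟨i, Finset.mem_univ i, Finset.mem_filter.mpr ⟨hk, h3⟩⟩)
    (by
      intro k hk p hp hall'
      have hk' := Finset.mem_Ico.mp hk
      obtain ⟨i, hi⟩ := hno p hp (K * k) (by
        calc N0 ≤ D := hDN0
          _ ≤ k := hk'.1
          _ = 1 * k := (one_mul k).symm
          _ ≤ K * k := Nat.mul_le_mul_right k hK)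
      exact hi (hall' i))
  -- comparison
  have hig : IG (SK D K c) c (D ^ 2 * P) x0 K := by
    refine IG_SK c hcpos D K (2 ^ z) P x0 hx0 hD2n hK ?_ ?_ (Nat.one_le_two_pow) hP hP1
    · intro i
      refine le_trans ?_ hDx0
      calc (K : ℝ) ^ (c i) ≤ (3 * K : ℝ) ^ (c i) :=
            Real.rpow_le_rpow hK0.le (by linarith) (hcpos i).le
        _ ≤ _ := Real.rpow_le_rpow_of_exponent_le (by linarith) (hΓ i)
    · intro i
      have h1 := hsz' i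
      push_cast at h1 ⊢
      have h2 : ((K : ℝ) * D) ^ c i ≤ (2 * K * D : ℝ) ^ c i := by
        refine Real.rpow_le_rpow (by positivity) ?_ (hcpos i).le
        have : (0 : ℝ) ≤ K * D := by positivity
        linarith
      have h3 : (0 : ℝ) ≤ (2 : ℝ) ^ z := by positivity
      linarith
  have hQpos : 0 < D ^ 2 := by positivity
  have hrep := hFR (SK D K c) (D ^ 2 * P) hDD1 hig
    (fun y : ZMod (D ^ 2 * P) => (g0A A (D ^ 2) η y : ℂ))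
    (fun (_ : Fin (l + 1)) (y : ZMod (D ^ 2 * P)) => (gA A (D ^ 2) y : ℂ))
    (g0A_adm A hQpos (Dvd.intro _ rfl) η)
    (fun _ => gA_adm A hQpos (Dvd.intro _ rfl)) (fun i => D ^ 2 * (B i + 1)) (by
      intro i
      refine ⟨Nat.mul_pos hQpos (Nat.succ_pos _), ?_⟩
      change ((D ^ 2 * (B i + 1) : ℕ) : ℝ) ≤
        ((D ^ 2 : ℕ) : ℝ) * ((K : ℝ) * D) ^ (c i) * (D : ℝ) ^ (-(xw / 8))
      rw [mul_assoc, Nat.cast_mul]
      refine mul_le_mul_of_nonneg_left ?_ (by positivity)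
      have h1 : (D : ℝ) ^ (c i) ≤ ((K : ℝ) * D) ^ (c i) := by
        refine Real.rpow_le_rpow hDr0.le ?_ (hcpos i).le
        nlinarith
      have h2 : (D : ℝ) ^ (c i) * (D : ℝ) ^ (-(xw / 8)) =
          (D : ℝ) ^ (c i - xw / 4) * (D : ℝ) ^ (xw / 8) := by
        rw [← Real.rpow_add hDr0, ← Real.rpow_add hDr0]
        congr 1
        ring
      have h3 : (1 : ℝ) ≤ (D : ℝ) ^ (c i - xw / 4) :=
        Real.one_le_rpow hDr1 (by linarith [hc2 i])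
      push_cast
      calc (B i : ℝ) + 1 ≤ (D : ℝ) ^ (c i - xw / 4) * 4 := by linarith [hBle i]
        _ ≤ (D : ℝ) ^ (c i - xw / 4) * (D : ℝ) ^ (xw / 8) :=
            mul_le_mul_of_nonneg_left hDxw (by positivity)
        _ = (D : ℝ) ^ (c i) * (D : ℝ) ^ (-(xw / 8)) := h2.symm
        _ ≤ _ := mul_le_mul_of_nonneg_right h1 (by positivity))
  have hAA : (fun (i : Fin (l + 1)) (x : ZMod (D ^ 2 * P)) =>
      (open scoped Classical in if IsN (c i) then (gA A (D ^ 2) x : ℂ) else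
        NX.A (D ^ 2 * (B i + 1)) (fun y : ZMod (D ^ 2 * P) => (gA A (D ^ 2) y : ℂ)) x)) =
      fun (i : Fin (l + 1)) (x : ZMod (D ^ 2 * P)) => ((gm c A (D ^ 2) B i x : ℝ) : ℂ) := by
    funext i x
    unfold gm
    by_cases hi : IsN (c i)
    · rw [if_pos hi, if_pos hi]
    · rw [if_neg hi, if_neg hi]
      exact A_ofReal _ (gA A (D ^ 2)) x
  rw [hAA, form_ofReal, form_ofReal, ← Complex.ofReal_sub, Complex.norm_real, Real.norm_eq_abs]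
    at hrep
  have h1 := (abs_sub_le_iff.mp hrep).2
  have hSKD : (SK D K c).D = (D : ℝ) := rfl
  rw [hSKD] at h1
  exact final_num (l + 1) τ3 Cs c1 ζ _ _ _ hζ0 hc10 hc1τ hζt hlow' hup
    (sub_le_iff_le_add'.mp h1) (hDσ σ1 hσ1')

end

end Pool.Agent.Helper57.NX3
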