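import Pool.Agent.Helper8.NX3.Averages
import Pool.Agent.Helper57.NX3.PatMain
import Pool.Agent.Helper68.NX3.FreezeReal
import Pool.Agent.Helper82.NX3.MainFixed
import Pool.Agent.Helper84.NX3.FracMult
import Pool.Agent.Helper87.NX3.Scales

/-!
# Project NX2, module C15, part 7: the pattern theorem for mixed exponents
-/

set_option autoImplicit false

open Finset
open scoped BigOperators

namespace Pool.Agent.Helper57.NX3

open Pool.Agent.Helper57.NX (Sys Good form Adm ES0 exists_pos_lb)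
open Pool.Agent.Helper67.NX2 (IsN sh nform IG Ex PrA BlkLen Fm)

noncomputable section

/-- the relation between the coarse and the fine modulus -/
def PMrel {s : ℕ} (d : Fin s → ℕ) (γ ε x0 τ V κ : ℝ) (K K' : ℕ) : Prop :=
  ∃ z0 : ℕ, ∀ z : ℕ, z0 ≤ z → ∀ A : Finset ℕ, PrA z A → ∀ (D : ℝ) (u T : ℕ),
    (2 : ℝ) ^ (τ * z) ≤ D → (∀ i, ((K : ℝ) * (3 * D)) ^ (d i) ≤ (2 : ℝ) ^ z) →
    D ≤ u → (u : ℝ) + T ≤ 2 * D → D ^ (1 - x0) ≤ T →
    ∀ G : ℕ → ℝ, (∀ x, |G x| ≤ V) → (∀ x t : ℕ, |G (x + t) - G x| ≤ V * t / D ^ (γ - ε)) →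
    ∀ b : Option (Fin s) → ℕ, BlkLen d γ ε D b →
    |nform d K u T (2 ^ z) G (fun _ => FA z A) -
      nform d K u T (2 ^ z) G (fun o => Fm (FA z A) K' (b o))| ≤ κ

/-- the statement of `primes_model` -/
def PrimesModel : Prop :=
  ∀ (s : ℕ) (d : Fin (s + 1) → ℕ) (_ : ∀ i, 2 ≤ d i)
    (_ : ∀ i j, i < j → d i + 2 ≤ d j) (γ ε : ℝ) (_ : 1 ≤ γ) (_ : γ ≤ d 0) (_ : 0 < ε)
    (_ : ε ≤ 1 / 8),
    ∃ x0 : ℝ, 0 < x0 ∧ ∀ τ V κ : ℝ, 0 < τ → 1 ≤ V → 0 < κ → ∃ w0 : ℕ, ∀ w : ℕ, w0 ≤ w →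
    ∀ K : ℕ, 1 ≤ K → (∀ p : ℕ, p.Prime → p ∣ K → p ≤ w) →
    ∃ K' : ℕ, 1 ≤ K' ∧ K ∣ K' ∧ (∀ p : ℕ, p.Prime → (p ∣ K' ↔ p ≤ w)) ∧
      PMrel d γ ε x0 τ V κ K K'

/-- the statement of `form_replace'` -/
def FormRep : Prop :=
  ∀ (m : ℕ) (c : Fin m → ℝ), Ex c →
    ∀ ε : ℝ, 0 < ε → ∃ x0 : ℝ, 0 < x0 ∧ ∃ σ : ℝ, 0 < σ ∧ ∀ lam : ℕ, ∃ D0 : ℝ,
    ∀ (S : Sys m) (N : ℕ) [NeZero N], D0 ≤ S.D → IG S c N x0 lam →
    ∀ (f0 : ZMod N → ℂ) (f : Fin m → ZMod N → ℂ), Adm 8 S.Q f0 → (∀ i, Adm 8 S.Q (f i)) →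
    ∀ L : Fin m → ℕ, (∀ i, 1 ≤ L i ∧ (L i : ℝ) ≤ S.P i * S.D ^ (-ε)) →
    ‖form S c 1 f0 f - form S c 1 f0 (fun i x => (open scoped Classical in
      if IsN (c i) then f i x else NX.A (L i) (f i) x))‖ ≤ S.D ^ (-σ)

theorem exists_chain (w : ℕ) (R : ℕ → ℕ → Prop)
    (hR : ∀ K, 1 ≤ K → (∀ p : ℕ, p.Prime → (p ∣ K ↔ p ≤ w)) →
      ∃ K', 1 ≤ K' ∧ K ∣ K' ∧ (∀ p : ℕ, p.Prime → (p ∣ K' ↔ p ≤ w)) ∧ R K K') :
    ∃ Ks : ℕ → ℕ, ∀ j, 1 ≤ Ks j ∧ (∀ p : ℕ, p.Prime → (p ∣ Ks j ↔ p ≤ w)) ∧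
      Ks j ∣ Ks (j + 1) ∧ R (Ks j) (Ks (j + 1)) := by
  classical
  let X := {K : ℕ // 1 ≤ K ∧ ∀ p : ℕ, p.Prime → (p ∣ K ↔ p ≤ w)}
  have hstep : ∀ K : X, ∃ K' : X, K.1 ∣ K'.1 ∧ R K.1 K'.1 := by
    rintro ⟨K, hK1, hK2⟩
    obtain ⟨K', h1, h2, h3, h4⟩ := hR K hK1 hK2
    exact ⟨⟨K', h1, h3⟩, h2, h4⟩
  choose nx hnx1 hnx2 using hstep
  let K0 : X := ⟨w.factorial, Nat.factorial_pos w, fun p hp => hp.dvd_factorial⟩
  let sq : ℕ → X := fun j => Nat.rec K0 (fun _ K => nx K) j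
  refine ⟨fun j => (sq j).1, fun j => ⟨(sq j).2.1, (sq j).2.2, ?_, ?_⟩⟩
  · exact hnx1 (sq j)
  · exact hnx2 (sq j)

/-- primes below the square root are rare -/
theorem small_primes (δ : ℝ) (hδ : 0 < δ) : ∃ z0 : ℕ, ∀ z : ℕ, z0 ≤ z → ∀ A : Finset ℕ, PS z A →
    δ * ((2 : ℝ) ^ z / Real.log ((2 : ℝ) ^ z)) ≤ A.card →
    δ / 2 * ((2 : ℝ) ^ z / Real.log ((2 : ℝ) ^ z)) ≤ (A.filter fun p => 2 ^ z ≤ p ^ 2).card := by
  obtain ⟨z1, hz1⟩ := size_ev 1 (1 / 4) one_pos (by norm_num) 0 (4 / δ)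
  obtain ⟨z2, hz2⟩ := size_ev 1 (1 / 4) one_pos (by norm_num) 1 0
  refine ⟨max (max z1 z2) 2, fun z hz A hA hcard => ?_⟩
  have h1 := (hz1 z ((le_max_left _ _).trans ((le_max_left _ _).trans hz))).1
  have h2 := (hz2 z ((le_max_right _ _).trans ((le_max_left _ _).trans hz))).2
  have hz2' : 2 ≤ z := (le_max_right _ _).trans hz
  have hz0 : (0 : ℝ) < z := by exact_mod_cast (by omega : 0 < z)
  rw [Real.rpow_one] at h1 h2
  rw [pow_one] at h2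
  set Z : ℝ := (2 : ℝ) ^ z with hZ
  have hZ0 : 0 < Z := by positivity
  have hlog : Real.log Z = z * Real.log 2 := Real.log_pow _ _
  have hlog2 : 0 < Real.log 2 := Real.log_pos (by norm_num)
  have hlogz : 0 < Real.log Z := by rw [hlog]; positivity
  have hlogle : Real.log Z ≤ z := by
    rw [hlog]
    have : Real.log 2 ≤ 1 := by linarith [Real.log_two_lt_d9]
    nlinarith
  -- `z ≤ Z^(1/4)`
  have h3 : (z : ℝ) ≤ Z ^ (1 / 4 : ℝ) := by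
    rw [Real.rpow_neg hZ0.le] at h2
    exact (inv_le_inv₀ (by positivity) hz0).mp h2
  have hsplit : A.card = (A.filter fun p => 2 ^ z ≤ p ^ 2).card +
      (A.filter fun p => ¬ 2 ^ z ≤ p ^ 2).card := (Finset.card_filter_add_card_filter_not _).symm
  have hsmall : ((A.filter fun p => ¬ 2 ^ z ≤ p ^ 2).card : ℝ) ≤ Z ^ (1 / 2 : ℝ) + 1 := by
    have h4 : (A.filter fun p => ¬ 2 ^ z ≤ p ^ 2) ⊆ range (⌊Z ^ (1 / 2 : ℝ)⌋₊ + 1) := by
      intro p hp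
      rw [Finset.mem_filter, not_le] at hp
      rw [Finset.mem_range, Nat.lt_succ_iff]
      refine Nat.le_floor ?_
      have h5 : ((p : ℝ)) ^ 2 ≤ Z := by
        have : ((p ^ 2 : ℕ) : ℝ) ≤ ((2 ^ z : ℕ) : ℝ) := by exact_mod_cast hp.2.le
        push_cast at this
        exact this
      calc (p : ℝ) = Real.sqrt ((p : ℝ) ^ 2) := (Real.sqrt_sq (Nat.cast_nonneg _)).symm
        _ ≤ Real.sqrt Z := Real.sqrt_le_sqrt h5
        _ = _ := Real.sqrt_eq_rpow Z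
    have h6 := Finset.card_le_card h4
    rw [Finset.card_range] at h6
    have h7 : ((A.filter fun p => ¬ 2 ^ z ≤ p ^ 2).card : ℝ) ≤
        ((⌊Z ^ (1 / 2 : ℝ)⌋₊ + 1 : ℕ) : ℝ) := by exact_mod_cast h6
    push_cast at h7
    have h8 : (⌊Z ^ (1 / 2 : ℝ)⌋₊ : ℝ) ≤ Z ^ (1 / 2 : ℝ) := Nat.floor_le (by positivity)
    linarith
  have hZ1 : 1 ≤ Z := one_le_pow₀ (by norm_num)
  have hmain : Z ^ (1 / 2 : ℝ) + 1 ≤ δ / 2 * (Z / Real.log Z) := by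
    have h9 : (1 : ℝ) ≤ Z ^ (1 / 2 : ℝ) := Real.one_le_rpow hZ1 (by norm_num)
    rw [← mul_div_assoc, le_div_iff₀ hlogz]
    have h10 : Z = Z ^ (1 / 2 : ℝ) * (Z ^ (1 / 4 : ℝ) * Z ^ (1 / 4 : ℝ)) := by
      rw [← Real.rpow_add hZ0, ← Real.rpow_add hZ0]
      norm_num
    have h11 : 4 ≤ δ * Z ^ (1 / 4 : ℝ) := by
      rw [div_le_iff₀ hδ] at h1
      linarith
    calc (Z ^ (1 / 2 : ℝ) + 1) * Real.log Z ≤ (2 * Z ^ (1 / 2 : ℝ)) * Z ^ (1 / 4 : ℝ) := by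
          refine mul_le_mul (by linarith) (hlogle.trans h3) hlogz.le (by positivity)
      _ = 1 / 2 * (Z ^ (1 / 2 : ℝ) * Z ^ (1 / 4 : ℝ)) * 4 := by ring
      _ ≤ 1 / 2 * (Z ^ (1 / 2 : ℝ) * Z ^ (1 / 4 : ℝ)) * (δ * Z ^ (1 / 4 : ℝ)) :=
          mul_le_mul_of_nonneg_left h11 (by positivity)
      _ = δ / 2 * (Z ^ (1 / 2 : ℝ) * (Z ^ (1 / 4 : ℝ) * Z ^ (1 / 4 : ℝ))) := by ring
      _ = δ / 2 * Z := by rw [← h10]
  have h12 : (A.card : ℝ) = ((A.filter fun p => 2 ^ z ≤ p ^ 2).card : ℝ) +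
      ((A.filter fun p => ¬ 2 ^ z ≤ p ^ 2).card : ℝ) := by exact_mod_cast hsplit
  have h13 : δ / 2 * (Z / Real.log Z) = δ * (Z / Real.log Z) - δ / 2 * (Z / Real.log Z) := by ring
  linarith

theorem pattern_mixed (hES : ES0) (hFR : FormRep) (hPMo : PrimesModel) {l : ℕ}
    (c : Fin (l + 1) → ℝ) (hc : Ex c) (hnat : ∃ i, IsN (c i)) (δ : ℝ) (hδ : 0 < δ) (N0 : ℕ) :
    ∃ z0 : ℕ, ∀ z : ℕ, z0 ≤ z → ∀ A : Finset ℕ, PS z A →
    δ * ((2 : ℝ) ^ z / Real.log ((2 : ℝ) ^ z)) ≤ A.card →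
    ∃ m ∈ A, ∃ n : ℕ, N0 ≤ n ∧ ∀ i, m + ⌊(n : ℝ) ^ c i⌋₊ ∈ A := by
  classical
  -- monotonicity of the exponents
  have hc0 : ∀ i, c 0 ≤ c i := by
    intro i
    rcases eq_or_lt_of_le (Fin.zero_le i) with h | h
    · rw [← h]
    · have := hc.gap 0 i h
      linarith
  have hcl : ∀ i, c i ≤ c (Fin.last l) := by
    intro i
    rcases eq_or_lt_of_le (Fin.le_last i) with h | h
    · rw [h]
    · have := hc.gap i (Fin.last l) h
      linarith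
  -- the natural exponents
  set Sn : Finset (Fin (l + 1)) := univ.filter fun i => IsN (c i) with hSn
  have hSne : 0 < Sn.card := by
    obtain ⟨i, hi⟩ := hnat
    exact Finset.card_pos.mpr ⟨i, Finset.mem_filter.mpr ⟨Finset.mem_univ i, hi⟩⟩
  obtain ⟨s, hs⟩ : ∃ s, Sn.card = s + 1 := ⟨Sn.card - 1, by omega⟩
  set em : Fin (s + 1) ↪o Fin (l + 1) := Sn.orderEmbOfFin hs with hem
  have hemN : ∀ j, IsN (c (em j)) := fun j =>
    (Finset.mem_filter.mp (Finset.orderEmbOfFin_mem Sn hs j)).2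
  choose d hd using hemN
  have hall : ∀ i, IsN (c i) → ∃ j, em j = i := by
    intro i hi
    have h1 : i ∈ Set.range em := by
      rw [hem, Finset.range_orderEmbOfFin]
      exact Finset.mem_coe.mpr (Finset.mem_filter.mpr ⟨Finset.mem_univ i, hi⟩)
    exact h1
  have hd2 : ∀ i, 2 ≤ d i := by
    intro i
    have h1 := hc.two (em i)
    rw [hd i] at h1
    exact_mod_cast h1
  have hgap : ∀ i j, i < j → d i + 2 ≤ d j := by
    intro i j hij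
    have h1 := hc.gap (em i) (em j) (em.strictMono hij)
    rw [hd i, hd j] at h1
    exact_mod_cast h1
  -- constants
  have hγ : 1 ≤ c 0 := by linarith [hc.two 0]
  have hγd : c 0 ≤ d 0 := by rw [← hd 0]; exact hc0 _
  obtain ⟨x1, hx1, HPM⟩ := hPMo s d hd2 hgap (c 0) (1 / 8) hγ hγd (by norm_num) le_rfl
  set xw := min x1 (1 / 8) with hxwdef
  have hxw : 0 < xw := lt_min hx1 (by norm_num)
  have hxw1 : xw ≤ 1 / 8 := min_le_right _ _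
  have hxwx1 : xw ≤ x1 := min_le_left _ _
  obtain ⟨x0, hx0, σ1, hσ1, HFR⟩ := hFR (l + 1) c hc (xw / 8) (by positivity)
  set δ1 := min (δ / 2) 1 with hδ1def
  have hδ1 : 0 < δ1 := lt_min (by positivity) one_pos
  obtain ⟨κ, hκ, τ1, hτ1, HMF⟩ := main_fixed (Option (Fin (s + 1)))
    {i : Fin (l + 1) // ¬ IsN (c i)} δ1 hδ1 (min_le_right _ _)
  obtain ⟨J, HJ⟩ := scales κ hκ
  set Γ := c (Fin.last l) with hΓdef
  have hΓ0 : 0 ≤ Γ := by linarith [hc.two (Fin.last l)]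
  set Θ : ℕ := ⌈Γ⌉₊ + 3 with hΘdef
  have hΘ : Γ + 3 ≤ Θ := by
    rw [hΘdef]
    push_cast
    linarith [Nat.le_ceil Γ]
  have hΘ2 : 2 ≤ Θ := by omega
  set τ : ℝ := 1 / (2 * (Θ : ℝ) ^ (J + 2)) with hτdef
  have hΘr : (1 : ℝ) ≤ Θ := by exact_mod_cast (by omega : 1 ≤ Θ)
  have hτ : 0 < τ := by positivity
  have hτΘ : ∀ j < J, τ * (2 * Θ ^ (j + 2)) ≤ 1 := by
    intro j hj
    rw [hτdef, one_div, inv_mul_le_iff₀ (by positivity), mul_one]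
    refine mul_le_mul_of_nonneg_left ?_ (by norm_num)
    exact pow_le_pow_right₀ hΘr (by omega)
  obtain ⟨V, hV, HAN⟩ := prod_AN {i : Fin (l + 1) // ¬ IsN (c i)} τ hτ
  obtain ⟨z2, hAN⟩ := HAN (c 0) (1 / 8) (xw / 4) hγ (by positivity) (by linarith) (by norm_num)
  obtain ⟨w0, Hw⟩ := HPM τ V (τ1 / 2) hτ hV (by positivity)
  -- the chain
  obtain ⟨Ks, hKs⟩ := exists_chain w0 (fun K K' => PMrel d (c 0) (1 / 8) x1 τ V (τ1 / 2) K K')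
    (fun K hK hKw => Hw w0 le_rfl K hK (fun p hp hpK => (hKw p hp).mp hpK))
  obtain ⟨zS, hzS⟩ := HJ Θ hΘ2 Ks (fun j => (hKs j).1)
  -- one step
  have hstep : ∀ j, ∃ z0 : ℕ, j < J → ∀ z : ℕ, z0 ≤ z → ∀ A : Finset ℕ, PrA z A →
    δ1 * ((2 : ℝ) ^ z / Real.log ((2 : ℝ) ^ z)) ≤ A.card →
    En z A (Ks (j + 1)) (z / Θ ^ (j + 2)) + En z A 1 (z / Θ ^ (j + 2)) ≤
      En z A (Ks j) (z / Θ ^ (j + 1)) + En z A 1 (z / Θ ^ (j + 1)) + κ →
    ∃ m ∈ A, ∃ n : ℕ, N0 ≤ n ∧ ∀ i, m + ⌊(n : ℝ) ^ c i⌋₊ ∈ A := by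
    intro j
    by_cases hj : j < J
    swap
    · exact ⟨0, fun h => absurd h hj⟩
    obtain ⟨hK, hKw, hKK, z1, hPM⟩ := hKs j
    obtain ⟨hK', hKw', -, -⟩ := hKs (j + 1)
    have hpf : (Ks (j + 1)).primeFactors = (Ks j).primeFactors := by
      ext p
      rw [Nat.mem_primeFactors, Nat.mem_primeFactors]
      constructor
      · rintro ⟨hp, h1, -⟩
        exact ⟨hp, (hKw p hp).mpr ((hKw' p hp).mp h1), by omega⟩
      · rintro ⟨hp, h1, -⟩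
        exact ⟨hp, (hKw' p hp).mpr ((hKw p hp).mp h1), by omega⟩
    obtain ⟨D1, hFR1⟩ := HFR (Ks j)
    -- fractional parts
    have hfr : ∀ i : Fin (l + 1), ∃ C : ℝ, 0 < C ∧ ∃ σ : ℝ, 0 < σ ∧ ∃ D0 : ℝ, ¬ IsN (c i) →
        ∀ D : ℕ, D0 ≤ D → ∀ η : ℝ, 0 < η → η ≤ 1 →
        (#((Ico D (D + D)).filter fun k : ℕ =>
          1 - η ≤ Int.fract (((Ks j * k : ℕ) : ℝ) ^ c i)) : ℝ) ≤ C * (η + (D : ℝ) ^ (-σ)) * D := by
      intro i
      by_cases hi : IsN (c i)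
      · exact ⟨1, one_pos, 1, one_pos, 0, fun h => absurd hi h⟩
      · obtain ⟨C, hC, σ, hσ, D0, h⟩ := frac_mult hES (c i) (by linarith [hc.two i])
          (fun n hn => hi ⟨n, hn⟩) (Ks j) hK
        exact ⟨C, hC, σ, hσ, D0, fun _ => h⟩
    choose Ci hCi σi hσi Di HF using hfr
    obtain ⟨σ2, hσ2, hσ21, hσ2i⟩ := exists_pos_lb σi hσi
    -- freezing
    have hfz := fun i : Fin (l + 1) => freeze_real (Ks j) hK (c i) (by linarith [hc.two i])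
      (xw / 2) (by positivity)
    choose Fi HFi using hfz
    obtain ⟨z3, hMF⟩ := HMF (Ks j) (Ks (j + 1)) hK hK' hKK hpf (τ / 2) (by positivity)
    have hsumle : ∀ (g : Fin (l + 1) → ℝ) (i : Fin (l + 1)), g i ≤ ∑ i, |g i| := fun g i =>
      (le_abs_self _).trans (Finset.single_le_sum (f := fun i => |g i|)
        (fun j _ => abs_nonneg _) (Finset.mem_univ i))
    have hmain := step_pattern c hc hc0 d em em.injective hd hall (Ks j) (Ks (j + 1)) hK hK' hKK hpf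
      xw hxw hxw1 τ V τ1 κ δ1 hτ hτ1 Θ j hΘ2 Γ hΓ0 hcl hΘ (hτΘ j hj) N0 x0 σ1 (max D1 1) hx0 hσ1
      (fun S N _ hD hIG => hFR1 S N ((le_max_left _ _).trans hD) hIG)
      σ2 hσ2 (∑ i, |Ci i|) (max (∑ i, |Di i|) 1) (Finset.sum_nonneg fun i _ => abs_nonneg _)
      (by
        intro i hi D hD η hη hη1
        have hD1 : (1 : ℝ) ≤ D := (le_max_right _ _).trans hD
        refine (HF i hi D ((hsumle Di i).trans ((le_max_left _ _).trans hD)) η hη hη1).trans ?_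
        have h1 : (D : ℝ) ^ (-σi i) ≤ (D : ℝ) ^ (-σ2) :=
          Real.rpow_le_rpow_of_exponent_le hD1 (by linarith [hσ2i i])
        have h2 := hsumle Ci i
        have h3 : (0 : ℝ) ≤ (D : ℝ) ^ (-σi i) := by positivity
        have h4 := hCi i
        gcongr)
      (∑ i, |Fi i|)
      (by
        intro i D u T Q B hD hu huT hT hQ hB
        exact HFi i D u T Q B ((hsumle Fi i).trans hD) hu huT hT hQ hB)
      z1
      (by
        intro z hz A hA D u T h1 h2 h3 h4 h5 G hG1 hG2 b hb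
        refine hPM z hz A hA D u T h1 h2 h3 h4 (le_trans ?_ h5) G hG1 hG2 b hb
        have hD1 : (1 : ℝ) ≤ D := by
          refine le_trans ?_ h1
          exact Real.one_le_rpow (by norm_num) (by positivity)
        exact Real.rpow_le_rpow_of_exponent_le hD1 (by linarith))
      z2 hAN z3 hMF
    obtain ⟨z0, hz0⟩ := hmain
    exact ⟨z0, fun _ => hz0⟩
  choose Zs hZs using hstep
  obtain ⟨zP, hzP⟩ := small_primes δ hδ
  refine ⟨max (max zS zP) (∑ j ∈ range J, Zs j), fun z hz A hA hcard => ?_⟩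
  have hzS' : zS ≤ z := (le_max_left _ _).trans ((le_max_left _ _).trans hz)
  have hzP' : zP ≤ z := (le_max_right _ _).trans ((le_max_left _ _).trans hz)
  have hzZ : ∑ j ∈ range J, Zs j ≤ z := (le_max_right _ _).trans hz
  set A' := A.filter fun p => 2 ^ z ≤ p ^ 2 with hA'
  have hA'P : PrA z A' := by
    intro p hp
    rw [hA', Finset.mem_filter] at hp
    exact ⟨(hA p hp.1).1, (hA p hp.1).2, hp.2⟩
  have hA'S : PS z A' := fun p hp => hA p (Finset.mem_filter.mp hp).1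
  obtain ⟨j, hj, hE⟩ := hzS z hzS' A' hA'S
  have hcard' := hzP z hzP' A hA hcard
  have hX0 : 0 ≤ (2 : ℝ) ^ z / Real.log ((2 : ℝ) ^ z) := by
    have : 0 ≤ Real.log ((2 : ℝ) ^ z) := Real.log_nonneg (one_le_pow₀ (by norm_num))
    positivity
  obtain ⟨m, hm, n, hn, hall'⟩ := hZs j hj z
    ((Finset.single_le_sum (f := Zs) (fun _ _ => Nat.zero_le _) (Finset.mem_range.mpr hj)).trans hzZ)
    A' hA'P (by
      refine le_trans ?_ hcard'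
      exact mul_le_mul_of_nonneg_right (min_le_left _ _) hX0) hE
  exact ⟨m, (Finset.mem_filter.mp hm).1, n, hn, fun i => (Finset.mem_filter.mp (hall' i)).1⟩

end

end Pool.Agent.Helper57.NX3
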