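import Pool.Agent.Helper57.NX3.PatBlk

/-!
# Project NX2, module C15: the windows
-/

set_option autoImplicit false

open Finset
open scoped BigOperators

namespace Pool.Agent.Helper57.NX3

open Pool.Agent.Helper67.NX2 (IsN sh nform IG Ex PrA BlkLen Fm)

noncomputable section

/-- sizes of the shifts at a natural position -/
theorem size_nat {D K k dd z β1 β Θ : ℕ} {Γ τ : ℝ} (hD : D = 2 ^ β1) (hK : 1 ≤ K)
    (hD0 : (0 : ℝ) < D) (hDK : 8 * (3 * K : ℝ) ^ Γ ≤ D) (hd : (dd : ℝ) ≤ Γ) (hΘ : Γ + 3 ≤ Θ)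
    (hβ : β1 * Θ ≤ β) (hθ0 : (0 : ℝ) ≤ ((2 : ℝ) ^ z) ^ (τ / 2))
    (hθD : ((2 : ℝ) ^ z) ^ (τ / 2) ≤ D) (hk : k ≤ 2 * D) :
    (((K * k) ^ dd : ℕ) : ℝ) * ((2 : ℝ) ^ z) ^ (τ / 2) ≤ 2 ^ β := by
  have hK0 : (0 : ℝ) ≤ K := Nat.cast_nonneg _
  have h1 : (((K * k) ^ dd : ℕ) : ℝ) ≤ (2 * K * D : ℝ) ^ ((dd : ℕ) : ℝ) := by
    rw [Real.rpow_natCast]
    push_cast
    refine pow_le_pow_left₀ (by positivity) ?_ _
    have h2 : (k : ℝ) ≤ 2 * D := by exact_mod_cast hk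
    nlinarith
  have h2 := twoKe_le hK hD0 hDK (Nat.cast_nonneg dd) hd
  have h3 : (D : ℝ) ^ ((dd : ℝ) + 1) * D = (D : ℝ) ^ ((dd : ℝ) + 1 + 1) := by
    rw [Real.rpow_add hD0 ((dd : ℝ) + 1) 1, Real.rpow_one]
  calc (((K * k) ^ dd : ℕ) : ℝ) * ((2 : ℝ) ^ z) ^ (τ / 2)
      ≤ (D : ℝ) ^ ((dd : ℝ) + 1) * D := by
        refine mul_le_mul (h1.trans (h2.trans ?_)) hθD hθ0 (by positivity)
        have h4 : (0 : ℝ) ≤ (D : ℝ) ^ ((dd : ℝ) + 1) := by positivity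
        linarith
    _ = (D : ℝ) ^ ((dd : ℝ) + 1 + 1) := h3
    _ ≤ _ := by
        rw [hD]
        exact Dβ_le hβ (by linarith)

/-- sizes at a real position -/
theorem size_real {l D K z β1 β Θ v : ℕ} {c : Fin l → ℝ} {Γ τ xw : ℝ} (hD : D = 2 ^ β1)
    (hK : 1 ≤ K) (hD64 : (64 : ℝ) ≤ D) (hDK : 8 * (3 * K : ℝ) ^ Γ ≤ D) (hc2 : ∀ i, 2 ≤ c i)
    (hΓ : ∀ i, c i ≤ Γ) (hΘ : Γ + 3 ≤ Θ)
    (hβ : β1 * Θ ≤ β) (hθ0 : (0 : ℝ) ≤ ((2 : ℝ) ^ z) ^ (τ / 2))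
    (hθ : ((2 : ℝ) ^ z) ^ (τ / 2) ≤ (D : ℝ) ^ (1 / 2 : ℝ))
    (hθD : ((2 : ℝ) ^ z) ^ (τ / 2) ≤ D) (hxw : 0 < xw) (hxw1 : xw ≤ 1 / 8)
    (hDxw : (4 : ℝ) ≤ (D : ℝ) ^ (xw / 8)) (hβ1 : 1 ≤ β1) {i : Fin l} (hi : ¬ IsN (c i))
    (hv : (v : ℝ) ≤ (2 * K * D : ℝ) ^ c i + 3) :
    (v : ℝ) * ((2 : ℝ) ^ z) ^ (τ / 2) ≤ 2 ^ β ∧
      ((BB c β1 xw i / 2 : ℕ) : ℝ) * ((2 : ℝ) ^ z) ^ (τ / 2) ≤ 2 ^ β ∧
      2 ^ β1 * ((2 : ℝ) ^ z) ^ (τ / 2) ≤ ((BB c β1 xw i / 2 : ℕ) : ℝ) := by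
  have hD0 : (0 : ℝ) < D := by linarith
  have hDr1 : (1 : ℝ) ≤ D := by linarith
  have hci := hc2 i
  have hΓi := hΓ i
  have hDe1 : (64 : ℝ) ≤ (D : ℝ) ^ (c i + 1) := by
    calc (64 : ℝ) ≤ D := hD64
      _ = (D : ℝ) ^ (1 : ℝ) := (Real.rpow_one _).symm
      _ ≤ _ := Real.rpow_le_rpow_of_exponent_le hDr1 (by linarith)
  have hDc1 : (D : ℝ) ^ (c i) * 64 ≤ (D : ℝ) ^ (c i + 1) := by
    rw [Real.rpow_add hD0, Real.rpow_one]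
    exact mul_le_mul_of_nonneg_left hD64 (by positivity)
  have h3 : (D : ℝ) ^ (c i + 1) * D = (D : ℝ) ^ (c i + 1 + 1) := by
    rw [Real.rpow_add hD0 (c i + 1) 1, Real.rpow_one]
  have h4 : (D : ℝ) ^ (c i + 1 + 1) ≤ 2 ^ β := by
    rw [hD]
    exact Dβ_le hβ (by linarith)
  have hhalf := BB_half (β1 := β1) (xw := xw) hc2 (by linarith) hβ1 hi
  have hle := BB_le (β1 := β1) (xw := xw) hc2 (by linarith) i
  have hge := BB_ge (β1 := β1) (xw := xw) hc2 (by linarith) hi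
  rw [← hD] at hle hge
  refine ⟨?_, ?_, ?_⟩
  · calc (v : ℝ) * ((2 : ℝ) ^ z) ^ (τ / 2) ≤ (D : ℝ) ^ (c i + 1) * D := by
          refine mul_le_mul (hv.trans ?_) hθD hθ0 (by positivity)
          have h1 := twoKe_le hK hD0 hDK (e := c i) (by linarith) hΓi
          linarith
      _ = (D : ℝ) ^ (c i + 1 + 1) := h3
      _ ≤ _ := h4
  · calc ((BB c β1 xw i / 2 : ℕ) : ℝ) * ((2 : ℝ) ^ z) ^ (τ / 2) ≤ (D : ℝ) ^ (c i + 1) * D := by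
          refine mul_le_mul ?_ hθD hθ0 (by positivity)
          rw [hhalf]
          have h1 : (D : ℝ) ^ (c i - xw / 4) ≤ (D : ℝ) ^ (c i) :=
            Real.rpow_le_rpow_of_exponent_le hDr1 (by linarith)
          have h4 : (0 : ℝ) ≤ (D : ℝ) ^ (c i) := by positivity
          have h5 : (0 : ℝ) ≤ (BB c β1 xw i : ℝ) := Nat.cast_nonneg _
          linarith
      _ = (D : ℝ) ^ (c i + 1 + 1) := h3
      _ ≤ _ := h4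
  · rw [hhalf]
    have h5 : (D : ℝ) ^ (c i - xw / 4) / 4 ≤ (BB c β1 xw i : ℝ) / 2 := by linarith
    refine le_trans ?_ h5
    have h1 : (2 : ℝ) ^ β1 = D := by rw [hD]; push_cast; rfl
    rw [h1]
    have h4 : (D : ℝ) * ((2 : ℝ) ^ z) ^ (τ / 2) ≤ (D : ℝ) ^ (3 / 2 : ℝ) := by
      calc (D : ℝ) * ((2 : ℝ) ^ z) ^ (τ / 2) ≤ D * (D : ℝ) ^ (1 / 2 : ℝ) :=
            mul_le_mul_of_nonneg_left hθ hD0.le
        _ = (D : ℝ) ^ (1 : ℝ) * (D : ℝ) ^ (1 / 2 : ℝ) := by rw [Real.rpow_one]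
        _ = (D : ℝ) ^ (3 / 2 : ℝ) := by
            rw [← Real.rpow_add hD0]
            norm_num
    refine h4.trans ?_
    rw [le_div_iff₀ (by norm_num)]
    calc (D : ℝ) ^ (3 / 2 : ℝ) * 4 ≤ (D : ℝ) ^ (3 / 2 : ℝ) * (D : ℝ) ^ (xw / 8) :=
          mul_le_mul_of_nonneg_left hDxw (by positivity)
      _ = (D : ℝ) ^ (3 / 2 + xw / 8) := (Real.rpow_add hD0 _ _).symm
      _ ≤ _ := Real.rpow_le_rpow_of_exponent_le hDr1 (by linarith)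

/-- the lower bounds on the windows -/
theorem all_windows {l s : ℕ} (c : Fin (l + 1) → ℝ) (hc2 : ∀ i, 2 ≤ c i)
    (hc0 : ∀ i, c 0 ≤ c i) (d : Fin s → ℕ) (hd2 : ∀ i, (2 : ℝ) ≤ d i)
    (K K' : ℕ) (hK : 1 ≤ K) (xw : ℝ) (hxw : 0 < xw) (hxw1 : xw ≤ 1 / 8)
    (τ V τ1 κ δ1 : ℝ) (z Θ β1 β : ℕ) (hΘ2 : 2 ≤ Θ) (Γ : ℝ) (hΓ : ∀ i, c i ≤ Γ)
    (hdΓ : ∀ i, (d i : ℝ) ≤ Γ) (hΘ : Γ + 3 ≤ Θ) (A : Finset ℕ)
    (D : ℕ) (hD : D = 2 ^ β1) (hD64 : (64 : ℝ) ≤ D) (hDK : 8 * (3 * K : ℝ) ^ Γ ≤ D)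
    (hDxw : (4 : ℝ) ≤ (D : ℝ) ^ (xw / 8)) (hβ1 : 1 ≤ β1) (hβ : β1 * Θ ≤ β) (hβz : β ≤ z)
    (hsc1 : ((2 : ℝ) ^ z) ^ τ ≤ D)
    (hθ : ((2 : ℝ) ^ z) ^ (τ / 2) ≤ (D : ℝ) ^ (1 / 2 : ℝ))
    (hfreeze : ∀ i, ∀ (u T Q B : ℕ), D ≤ u → u + T ≤ 2 * D →
      (T : ℝ) ≤ (D : ℝ) ^ (1 - xw / 2) →
      1 ≤ Q → (D : ℝ) ^ (c i - xw / 2 / 2) / 4 ≤ B → ∃ v : ℕ, (v : ℝ) ≤ (2 * K * D : ℝ) ^ c i + 3 ∧
      ∀ k ∈ Ico u (u + T), ∀ e < Q, (e + ⌊(Q : ℝ) * ((K * k : ℕ) : ℝ) ^ c i⌋₊) / Q + 1 ≤ v ∧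
        v + B / 2 ≤ (e + ⌊(Q : ℝ) * ((K * k : ℕ) : ℝ) ^ c i⌋₊) / Q + 1 + B)
    (hPM : ∀ (D : ℝ) (u T : ℕ),
      (2 : ℝ) ^ (τ * z) ≤ D → (∀ i, ((K : ℝ) * (3 * D)) ^ (d i) ≤ (2 : ℝ) ^ z) →
      D ≤ u → (u : ℝ) + T ≤ 2 * D → D ^ (1 - xw) ≤ T →
      ∀ G : ℕ → ℝ, (∀ x, |G x| ≤ V) →
      (∀ x t : ℕ, |G (x + t) - G x| ≤ V * t / D ^ (c 0 - 1 / 8)) →
      ∀ b : Option (Fin s) → ℕ, BlkLen d (c 0) (1 / 8) D b →
      |nform d K u T (2 ^ z) G (fun _ => FA z A) -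
        nform d K u T (2 ^ z) G (fun o => Fm (FA z A) K' (b o))| ≤ τ1 / 2)
    (hAN : (open scoped Classical in
      ∀ D : ℝ, ((2 : ℝ) ^ z) ^ τ ≤ D → ∀ L w : {i : Fin (l + 1) // ¬ IsN (c i)} → ℕ,
      (∀ j, D ^ (c 0 - xw / 4) / 8 ≤ L j) →
      (∀ x, |∏ j, AN (L j) (FA z A) (x + w j)| ≤ V) ∧
      ∀ x t : ℕ, |(∏ j, AN (L j) (FA z A) (x + t + w j)) - ∏ j, AN (L j) (FA z A) (x + w j)| ≤
        V * t / D ^ (c 0 - 1 / 8)))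
    (hcard : δ1 * ((2 : ℝ) ^ z / Real.log ((2 : ℝ) ^ z)) ≤ A.card)
    (hEn : En z A K' β1 + En z A 1 β1 ≤ En z A K β + En z A 1 β + κ)
    (hMF : (open scoped Classical in
      δ1 * ((2 : ℝ) ^ z / Real.log ((2 : ℝ) ^ z)) ≤ A.card →
      ∀ β β1 : ℕ, β1 ≤ β → β ≤ z → ((2 : ℝ) ^ z) ^ (τ / 2) ≤ 2 ^ β1 →
      En z A K' β1 + En z A 1 β1 ≤ En z A K β + En z A 1 β + κ →
      ∀ b v : Option (Fin s) → ℕ, (∀ i, β1 ≤ b i ∧ b i ≤ β ∧ K ∣ v i ∧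
        (v i : ℝ) * ((2 : ℝ) ^ z) ^ (τ / 2) ≤ 2 ^ β) →
      ∀ L w : {i : Fin (l + 1) // ¬ IsN (c i)} → ℕ,
      (∀ j, (w j : ℝ) * ((2 : ℝ) ^ z) ^ (τ / 2) ≤ 2 ^ β ∧
        (L j : ℝ) * ((2 : ℝ) ^ z) ^ (τ / 2) ≤ 2 ^ β ∧ 2 ^ β1 * ((2 : ℝ) ^ z) ^ (τ / 2) ≤ L j) →
      τ1 ≤ (∑ x ∈ range (2 ^ z), (∏ i, cd (FA z A) K' (b i) (x + v i)) *
        ∏ j, AN (L j) (FA z A) (x + w j)) / 2 ^ z))
    (T W : ℕ) (hDTW : D = T * W) (hT : 0 < T) (hTup : (T : ℝ) ≤ (D : ℝ) ^ (1 - xw / 2))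
    (hTlow : (D : ℝ) ^ (1 - xw) ≤ T) (t : ℕ) (ht : t < W) :
    ∃ v : {i : Fin (l + 1) // ¬ IsN (c i)} → ℕ,
      (∀ i : {i : Fin (l + 1) // ¬ IsN (c i)}, ∀ k ∈ Ico (D + T * t) (D + T * t + T), ∀ e < D ^ 2,
        (e + aK (D ^ 2) K (c i) k) / D ^ 2 + 1 ≤ v i ∧
          v i + BB c β1 xw i / 2 ≤ (e + aK (D ^ 2) K (c i) k) / D ^ 2 + 1 + BB c β1 xw i) ∧
      (open scoped Classical in τ1 / 2 ≤ nform d K (D + T * t) T (2 ^ z)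
        (fun x => ∏ j : {i : Fin (l + 1) // ¬ IsN (c i)},
          AN (BB c β1 xw j / 2) (FA z A) (x + v j))
        (fun _ => FA z A)) := by
  classical
  have hDr1 : (1 : ℝ) ≤ D := by linarith
  have hDr0 : (0 : ℝ) < D := by linarith
  have hD1n : 1 ≤ D := by exact_mod_cast hDr1
  have hθ0 : (0 : ℝ) ≤ ((2 : ℝ) ^ z) ^ (τ / 2) := by positivity
  have hθD : ((2 : ℝ) ^ z) ^ (τ / 2) ≤ D := by
    refine hθ.trans ?_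
    calc (D : ℝ) ^ (1 / 2 : ℝ) ≤ (D : ℝ) ^ (1 : ℝ) :=
          Real.rpow_le_rpow_of_exponent_le hDr1 (by norm_num)
      _ = D := Real.rpow_one _
  have hTt : D + T * t + T ≤ 2 * D := by
    have h1 : T * (t + 1) ≤ T * W := Nat.mul_le_mul_left T ht
    rw [Nat.mul_succ, ← hDTW] at h1
    omega
  have hfr : ∀ i : {i : Fin (l + 1) // ¬ IsN (c i)}, ∃ v : ℕ,
      (v : ℝ) ≤ (2 * K * D : ℝ) ^ c i + 3 ∧
      ∀ k ∈ Ico (D + T * t) (D + T * t + T), ∀ e < D ^ 2,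
        (e + aK (D ^ 2) K (c i) k) / D ^ 2 + 1 ≤ v ∧
        v + BB c β1 xw i / 2 ≤ (e + aK (D ^ 2) K (c i) k) / D ^ 2 + 1 + BB c β1 xw i := by
    intro i
    refine hfreeze i (D + T * t) T (D ^ 2) (BB c β1 xw i) (Nat.le_add_right _ _) hTt hTup
      (Nat.one_le_pow _ _ hD1n) ?_
    have h1 := BB_ge (β1 := β1) (xw := xw) hc2 (by linarith) i.2
    rw [← hD] at h1
    have h2 : c i - xw / 2 / 2 = c i - xw / 4 := by ring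
    rw [h2]
    have h3 : (0 : ℝ) ≤ (D : ℝ) ^ (c i - xw / 4) := by positivity
    linarith
  choose v hv1 hv2 using hfr
  refine ⟨v, hv2, ?_⟩
  have hLge : ∀ j : {i : Fin (l + 1) // ¬ IsN (c i)},
      (D : ℝ) ^ (c j - xw / 4) / 4 ≤ ((BB c β1 xw j / 2 : ℕ) : ℝ) := by
    intro j
    rw [BB_half hc2 (by linarith) hβ1 j.2]
    have := BB_ge (β1 := β1) (xw := xw) hc2 (by linarith) j.2
    rw [← hD] at this
    linarith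
  obtain ⟨hG1, hG2⟩ := hAN D hsc1 (fun j => BB c β1 xw j / 2) v (by
    intro j
    refine le_trans ?_ (hLge j)
    have h1 : (D : ℝ) ^ (c 0 - xw / 4) ≤ (D : ℝ) ^ (c j - xw / 4) :=
      Real.rpow_le_rpow_of_exponent_le hDr1 (by linarith [hc0 j])
    have h2 : (0 : ℝ) ≤ (D : ℝ) ^ (c j - xw / 4) := by positivity
    linarith)
  have hβz' : (2 : ℝ) ^ β ≤ (2 : ℝ) ^ z := pow_le_pow_right₀ (by norm_num) hβz
  refine window_form c d z K K' (D + T * t) T A τ1 hT v (BB c β1 xw) (bb β1 (c 0) d) ?_ ?_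
  · refine hPM D (D + T * t) T ?_ ?_ ?_ ?_ hTlow _ hG1 hG2 (bb β1 (c 0) d) ?_
    · refine le_trans (le_of_eq ?_) hsc1
      rw [← Real.rpow_natCast, ← Real.rpow_mul (by norm_num), mul_comm]
    · intro i
      have h1 := Ke_le hK hDr0 hDK (hdΓ i)
      rw [Real.rpow_natCast] at h1
      have h2 : ((K : ℝ) * (3 * D)) ^ d i = (3 * K * D : ℝ) ^ d i := by ring
      rw [h2]
      have h3 : (D : ℝ) ^ ((d i : ℝ) + 1) ≤ (2 : ℝ) ^ β := by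
        rw [hD]
        exact Dβ_le hβ (by linarith [hdΓ i])
      have h4 : (0 : ℝ) ≤ (D : ℝ) ^ ((d i : ℝ) + 1) := by positivity
      linarith
    · push_cast
      have : (0 : ℝ) ≤ (T : ℝ) * t := by positivity
      linarith
    · have h1 : ((D + T * t + T : ℕ) : ℝ) ≤ ((2 * D : ℕ) : ℝ) := by exact_mod_cast hTt
      push_cast at h1 ⊢
      exact h1
    · have h1 := bb_blk (s := s) β1 (hc2 0) d hd2
      rw [← hD] at h1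
      exact h1
  · intro k hk
    have hk' := Finset.mem_Ico.mp hk
    have hk2 : k ≤ 2 * D := by omega
    refine hMF hcard β β1 ?_ hβz ?_ hEn (bb β1 (c 0) d) (fun o => sh d (K * k) o) ?_
      (fun j => BB c β1 xw j / 2) v ?_
    · calc β1 = β1 * 1 := (mul_one _).symm
        _ ≤ β1 * Θ := Nat.mul_le_mul_left _ (by omega)
        _ ≤ β := hβ
    · refine hθD.trans (le_of_eq ?_)
      rw [hD]
      push_cast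
      rfl
    · intro o
      have hr := bb_range hβ (hc2 0) (hΓ 0) d hd2 hdΓ (by linarith) o
      refine ⟨hr.1, hr.2, ?_, ?_⟩
      · rcases o with _ | i
        · exact dvd_zero _
        · change K ∣ (K * k) ^ d i
          have h1 : d i ≠ 0 := by
            intro h0
            have := hd2 i
            rw [h0] at this
            norm_num at this
          exact dvd_pow (Dvd.intro _ rfl) h1
      · rcases o with _ | i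
        · change ((0 : ℕ) : ℝ) * _ ≤ _
          rw [Nat.cast_zero, zero_mul]
          positivity
        · exact size_nat hD hK hDr0 hDK (hdΓ i) hΘ hβ hθ0 hθD hk2
    · intro j
      exact size_real hD hK hD64 hDK hc2 hΓ hΘ hβ hθ0 hθ hθD hxw hxw1 hDxw hβ1 j.2 (hv1 j)

end

end Pool.Agent.Helper57.NX3
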