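import Pool.Agent.Helper57.NX3.PatSize

/-!
# Project NX2, module C15, part 4: one step of the chain of scales
-/

set_option autoImplicit false

open Finset
open scoped BigOperators

namespace Pool.Agent.Helper57.NX3

open Pool.Agent.Helper57.NX (ind ind_nonneg gA g0A AR Sys Good form formR Adm ES0 g0A_nonneg
  gA_nonneg gA_le_one g0A_adm gA_adm form_ofReal A_ofReal expect_zmod_real)
open Pool.Agent.Helper67.NX2 (IsN sh nform IG Ex PrA BlkLen Fm)

noncomputable section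

/-- the natural/real family of refined functions -/
def gm {l : ℕ} (c : Fin l → ℝ) {N : ℕ} (A : Finset ℕ) (Q : ℕ) (B : Fin l → ℕ) (i : Fin l)
    (x : ZMod N) : ℝ := by
  classical exact if IsN (c i) then gA A Q x else AR (Q * (B i + 1)) (gA A Q) x

/-- lower bound for the form, from the windows -/
theorem lower_form {l s : ℕ} (c : Fin l → ℝ) (hc : ∀ i, 0 < c i) (d : Fin s → ℕ) (em : Fin s → Fin l)
    (hem : Function.Injective em) (hd : ∀ j, c (em j) = d j)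
    (hall : ∀ i, IsN (c i) → ∃ j, em j = i) (z : ℕ) (hz : 1 ≤ z) (A : Finset ℕ) (hA : PS z A)
    (K D T W N : ℕ) [NeZero N] (hDTW : D = T * W) (hT : 0 < T) (hD : 1 ≤ D)
    (η τ2 : ℝ) (hτ2 : 0 ≤ τ2)
    (hN : D ^ 2 * (2 * 2 ^ z) ≤ N) (hN' : N ≤ D ^ 2 * (4 * 2 ^ z)) (hη0 : 0 ≤ η)
    (hη1 : η ≤ 1) (B : Fin l → ℕ) (hB : ∀ i, ¬ IsN (c i) → 2 ≤ B i)
    (hsz : ∀ i, ((2 * K * D : ℕ) : ℝ) ^ c i + B i + 1 ≤ (2 : ℝ) ^ z)
    (hwin : ∀ t < W, ∃ v : {i : Fin l // ¬ IsN (c i)} → ℕ,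
      (∀ i : {i : Fin l // ¬ IsN (c i)}, ∀ k ∈ Ico (D + T * t) (D + T * t + T), ∀ e < D ^ 2,
        (e + aK (D ^ 2) K (c i) k) / D ^ 2 + 1 ≤ v i ∧
          v i + B i / 2 ≤ (e + aK (D ^ 2) K (c i) k) / D ^ 2 + 1 + B i) ∧
      (open scoped Classical in τ2 ≤ nform d K (D + T * t) T (2 ^ z)
        (fun x => ∏ j : {i : Fin l // ¬ IsN (c i)}, AN (B j / 2) (FA z A) (x + v j))
        (fun _ => FA z A))) :
    η * τ2 / (4 ^ (l + 1) * Real.log ((2 : ℝ) ^ z) ^ (l + 1)) ≤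
      formR (N := N) (SK D K c) c (g0A A (D ^ 2) η) (gm c A (D ^ 2) B) := by
  classical
  have hlz : 0 < Real.log ((2 : ℝ) ^ z) := by
    rw [Real.log_pow]
    have h1 : (1 : ℝ) ≤ z := by exact_mod_cast hz
    have h2 : 0 < Real.log 2 := Real.log_pos (by norm_num)
    positivity
  set Q := D ^ 2 with hQ
  have hQ0 : 0 < Q := by positivity
  have hQr0 : (0 : ℝ) < Q := by exact_mod_cast hQ0
  have hDr0 : (0 : ℝ) < D := by exact_mod_cast hD
  have hN0 : (0 : ℝ) < N := by exact_mod_cast NeZero.pos N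
  set X : ℝ := η * Q * (τ2 * 2 ^ z / (Real.log ((2 : ℝ) ^ z) ^ (l + 1) * 4 ^ l)) with hX
  have hX0 : 0 ≤ X := by positivity
  have hTD : ∀ t < W, D + T * t + T ≤ D + D := by
    intro t ht
    have h1 : T * (t + 1) ≤ T * W := Nat.mul_le_mul_left T ht
    rw [Nat.mul_succ, ← hDTW] at h1
    omega
  have hszk : ∀ i, ∀ k, k < D + D → aK Q K (c i) k + Q * (B i + 1) ≤ Q * 2 ^ z := by
    intro i k hk
    have h1 : (aK Q K (c i) k : ℝ) ≤ Q * ((K * k : ℕ) : ℝ) ^ c i := Nat.floor_le (by positivity)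
    have h2 : ((K * k : ℕ) : ℝ) ^ c i ≤ ((2 * K * D : ℕ) : ℝ) ^ c i := by
      refine Real.rpow_le_rpow (Nat.cast_nonneg _) ?_ (hc i).le
      have : K * k ≤ 2 * K * D := by
        calc K * k ≤ K * (2 * D) := Nat.mul_le_mul_left K (by omega)
          _ = 2 * K * D := by ring
      exact_mod_cast this
    have h3 : ((aK Q K (c i) k + Q * (B i + 1) : ℕ) : ℝ) ≤ ((Q * 2 ^ z : ℕ) : ℝ) := by
      push_cast
      calc (aK Q K (c i) k : ℝ) + Q * ((B i : ℝ) + 1)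
          ≤ Q * ((2 * K * D : ℕ) : ℝ) ^ c i + Q * ((B i : ℝ) + 1) := by
            have := mul_le_mul_of_nonneg_left h2 hQr0.le
            linarith
        _ = Q * (((2 * K * D : ℕ) : ℝ) ^ c i + B i + 1) := by ring
        _ ≤ Q * 2 ^ z := mul_le_mul_of_nonneg_left (hsz i) hQr0.le
    exact_mod_cast h3
  have hwl : ∀ t < W, X * T ≤ ∑ k ∈ Ico (D + T * t) (D + T * t + T),
      ∑ y : ZMod N, g0A A Q η y * ∏ i, gm c A Q B i (y + (aK Q K (c i) k : ZMod N)) := by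
    intro t ht
    obtain ⟨v, hv1, hv2⟩ := hwin t ht
    have h1 := window_low c d em hem hd hall z hz A hA K Q N (D + T * t) T η τ2 hQ0 hN hη0 hη1 v B
      hB hv1 (fun i k hk => by
        refine hszk i k ?_
        have h2 := (Finset.mem_Ico.mp hk).2
        have := hTD t ht
        omega) hT hv2
    exact h1
  have hsum := windows_sum D T W hDTW _ X hwl
  -- the form
  have hform : formR (N := N) (SK D K c) c (g0A A Q η) (gm c A Q B) =
      (∑ k ∈ Ico D (D + D), ∑ y : ZMod N, g0A A Q η y *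
        ∏ i, gm c A Q B i (y + (aK Q K (c i) k : ZMod N))) / (D * N) := by
    unfold formR
    have hI : (SK D K c).I = Ico D (D + D) := rfl
    rw [hI, Finset.expect_eq_sum_div_card, Nat.card_Ico, Nat.add_sub_cancel]
    have h1 : ∀ k ∈ Ico D (D + D), (𝔼 x : ZMod N, g0A A Q η x *
        ∏ i, gm c A Q B i (x + ((SK D K c).a c i k : ZMod N))) =
        (∑ y : ZMod N, g0A A Q η y *
          ∏ i, gm c A Q B i (y + (aK Q K (c i) k : ZMod N))) / N := by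
      intro k _
      rw [expect_zmod_real]
      congr 1
      refine Finset.sum_congr rfl fun y _ => ?_
      congr 1
      refine Finset.prod_congr rfl fun i _ => ?_
      rw [SK_a hD K c i k]
      push_cast
      rfl
    rw [Finset.sum_congr rfl h1, ← Finset.sum_div, div_div, mul_comm (N : ℝ) D]
  rw [hform, le_div_iff₀ (by positivity)]
  refine le_trans ?_ hsum
  have hNr : (N : ℝ) ≤ Q * (4 * 2 ^ z) := by
    have : ((N : ℕ) : ℝ) ≤ ((Q * (4 * 2 ^ z) : ℕ) : ℝ) := by exact_mod_cast hN'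
    push_cast at this
    exact this
  calc η * τ2 / (4 ^ (l + 1) * Real.log ((2 : ℝ) ^ z) ^ (l + 1)) * (D * N)
      ≤ η * τ2 / (4 ^ (l + 1) * Real.log ((2 : ℝ) ^ z) ^ (l + 1)) * (D * (Q * (4 * 2 ^ z))) := by
        gcongr
    _ = X * D := by
        rw [hX]
        field_simp
        ring

/-- the contradiction at the end -/
theorem final_num (l : ℕ) (τ3 Cs c1 ζ form1 form2 err : ℝ) (hζ0 : 0 < ζ)
    (hc10 : 0 < c1) (hc1 : 2 * Cs * c1 ≤ τ3 / 2) (hζ : ζ < c1 * τ3 / 2)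
    (hlow : τ3 * (c1 * ζ ^ (l + 1)) * ζ ^ (l + 1) ≤ form1)
    (hup : form2 ≤ 2 * Cs * (c1 * ζ ^ (l + 1)) * (c1 * ζ ^ (l + 1)))
    (hdiff : form1 ≤ form2 + err) (herr : err ≤ ζ ^ (2 * l + 3)) : False := by
  have h3 : ζ ^ (2 * l + 3) < c1 * τ3 / 2 * ζ ^ (2 * l + 2) := by
    calc ζ ^ (2 * l + 3) = ζ * ζ ^ (2 * l + 2) := by ring
      _ < _ := mul_lt_mul_of_pos_right hζ (by positivity)
  have h4 : τ3 * (c1 * ζ ^ (l + 1)) * ζ ^ (l + 1) = c1 * τ3 * ζ ^ (2 * l + 2) := by ring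
  have h5 : 2 * Cs * (c1 * ζ ^ (l + 1)) * (c1 * ζ ^ (l + 1)) =
      (2 * Cs * c1) * c1 * ζ ^ (2 * l + 2) := by ring
  have h6 : (2 * Cs * c1) * c1 * ζ ^ (2 * l + 2) ≤ (τ3 / 2) * c1 * ζ ^ (2 * l + 2) := by
    gcongr
  have h7 : (τ3 / 2) * c1 * ζ ^ (2 * l + 2) + c1 * τ3 / 2 * ζ ^ (2 * l + 2) =
      c1 * τ3 * ζ ^ (2 * l + 2) := by ring
  linarith

end

end Pool.Agent.Helper57.NX3
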