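import Pool.Agent.Helper57.NX3.PatAlg
import Pool.Agent.Helper72.NX3.Lower

/-!
# Project NX2, module C15, part 2: the lower bound on a window
-/

set_option autoImplicit false

open Finset
open scoped BigOperators

namespace Pool.Agent.Helper57.NX3

open Pool.Agent.Helper57.NX (ind ind_nonneg gA g0A AR Sys Good)
open Pool.Agent.Helper67.NX2 (IsN sh nform IG)

noncomputable section

/-- the refined sequences -/
def aK (Q K : ℕ) (γ : ℝ) (k : ℕ) : ℕ := ⌊(Q : ℝ) * ((K * k : ℕ) : ℝ) ^ γ⌋₊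

theorem aK_nat (Q K k d : ℕ) {γ : ℝ} (h : γ = d) : aK Q K γ k = Q * (K * k) ^ d := by
  unfold aK
  rw [h, Real.rpow_natCast]
  have : (Q : ℝ) * ((K * k : ℕ) : ℝ) ^ d = ((Q * (K * k) ^ d : ℕ) : ℝ) := by push_cast; ring
  rw [this, Nat.floor_natCast]

/-- the system -/
def SK {m : ℕ} (D K : ℕ) (c : Fin m → ℝ) : Sys m :=
  ⟨D, 0, D ^ 2, D, D, fun i => ((D ^ 2 : ℕ) : ℝ) * ((K : ℝ) * D) ^ (c i)⟩

theorem SK_a {m : ℕ} {D : ℕ} (hD : 1 ≤ D) (K : ℕ) (c : Fin m → ℝ) (i : Fin m) (k : ℕ) :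
    (SK D K c).a c i k = ((aK (D ^ 2) K (c i) k : ℕ) : ℤ) := by
  have hD0 : (0 : ℝ) < D := by exact_mod_cast hD
  have h1 : (SK D K c).P i * ((SK D K c).t k) ^ (c i) =
      ((D ^ 2 : ℕ) : ℝ) * ((K * k : ℕ) : ℝ) ^ (c i) := by
    change (((D ^ 2 : ℕ) : ℝ) * ((K : ℝ) * D) ^ (c i)) * (((k : ℝ) + 0) / D) ^ (c i) = _
    rw [add_zero, mul_assoc, ← Real.mul_rpow (by positivity) (by positivity)]
    congr 2
    push_cast
    field_simp
  unfold Sys.a aK
  rw [h1]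
  exact (Int.natCast_floor_eq_floor (by positivity)).symm

/-- the lower bound on a window -/
theorem window_low {m s : ℕ} (c : Fin m → ℝ) [DecidablePred fun i : Fin m => IsN (c i)]
    (d : Fin s → ℕ) (em : Fin s → Fin m)
    (hem : Function.Injective em) (hd : ∀ j, c (em j) = d j)
    (hall : ∀ i, IsN (c i) → ∃ j, em j = i) (z : ℕ) (hz : 1 ≤ z) (A : Finset ℕ) (hA : PS z A)
    (K Q N u T : ℕ) [NeZero N] (η τ2 : ℝ) (hQ : 0 < Q) (hN : Q * (2 * 2 ^ z) ≤ N) (hη0 : 0 ≤ η)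
    (hη1 : η ≤ 1) (v : {i : Fin m // ¬ IsN (c i)} → ℕ) (B : Fin m → ℕ)
    (hB : ∀ i, ¬ IsN (c i) → 2 ≤ B i)
    (hfr : ∀ i : {i : Fin m // ¬ IsN (c i)}, ∀ k ∈ Ico u (u + T), ∀ e < Q,
      (e + aK Q K (c i) k) / Q + 1 ≤ v i ∧ v i + B i / 2 ≤ (e + aK Q K (c i) k) / Q + 1 + B i)
    (hsz : ∀ i, ∀ k ∈ Ico u (u + T), aK Q K (c i) k + Q * (B i + 1) ≤ Q * 2 ^ z)
    (hT : 0 < T)
    (hform : τ2 ≤ nform d K u T (2 ^ z)
      (fun x => ∏ j : {i : Fin m // ¬ IsN (c i)}, AN (B j / 2) (FA z A) (x + v j))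
      (fun _ => FA z A)) :
    η * Q * (τ2 * 2 ^ z / (Real.log ((2 : ℝ) ^ z) ^ (m + 1) * 4 ^ m)) * T ≤
      ∑ k ∈ Ico u (u + T), ∑ y : ZMod N, g0A A Q η y * ∏ i, (if IsN (c i) then
        gA A Q (y + (aK Q K (c i) k : ZMod N)) else
        AR (Q * (B i + 1)) (gA A Q) (y + (aK Q K (c i) k : ZMod N))) := by
  have hlz : 0 < Real.log ((2 : ℝ) ^ z) := by
    rw [Real.log_pow]
    have h1 : (1 : ℝ) ≤ z := by exact_mod_cast hz
    have h2 : 0 < Real.log 2 := Real.log_pos (by norm_num)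
    positivity
  have hstep : ∀ k ∈ Ico u (u + T), η * Q *
      ((∑ x ∈ range (2 ^ z), (∏ j : {i : Fin m // ¬ IsN (c i)}, AN (B j / 2) (FA z A) (x + v j)) *
      ∏ o : Option (Fin s), FA z A (x + sh d (K * k) o)) /
        (Real.log ((2 : ℝ) ^ z) ^ (m + 1) * 4 ^ m)) ≤
      ∑ y : ZMod N, g0A A Q η y * ∏ i, (if IsN (c i) then
        gA A Q (y + (aK Q K (c i) k : ZMod N)) else
        AR (Q * (B i + 1)) (gA A Q) (y + (aK Q K (c i) k : ZMod N))) := by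
    intro k hk
    have h1 := conv_k c d em hem hd hall z hz A hA (K * k) v B hB
    have h2 := lower_mixed A Q (2 ^ z) N η hQ hN (fun p hp => (hA p hp).2) hη0 hη1
      (fun i => IsN (c i)) (fun i => aK Q K (c i) k) B (fun i => B i / 2) (vv c v (K * k))
      (by
        rintro i ⟨d', hd'⟩
        rw [aK_nat Q K k d' hd', vv_nat c v (K * k) i d' hd'])
      (by
        intro i hi e he
        have h3 := hfr ⟨i, hi⟩ k hk e he
        have h4 := vv_real c v (K * k) ⟨i, hi⟩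
        simp only at h3 h4
        rw [h4]
        exact h3)
      (fun i => hsz i k hk)
    refine le_trans ?_ h2
    exact mul_le_mul_of_nonneg_left h1 (by positivity)
  refine le_trans ?_ (Finset.sum_le_sum hstep)
  rw [← Finset.mul_sum, ← Finset.sum_div]
  have hTr : (0 : ℝ) < T := by exact_mod_cast hT
  have h3 : nform d K u T (2 ^ z)
      (fun x => ∏ j : {i : Fin m // ¬ IsN (c i)}, AN (B j / 2) (FA z A) (x + v j))
      (fun _ => FA z A) * (T * 2 ^ z) = ∑ k ∈ Ico u (u + T),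
      ∑ x ∈ range (2 ^ z), (∏ j : {i : Fin m // ¬ IsN (c i)}, AN (B j / 2) (FA z A) (x + v j)) *
      ∏ o : Option (Fin s), FA z A (x + sh d (K * k) o) := by
    unfold nform
    rw [Finset.expect_eq_sum_div_card, Nat.card_Ico, Nat.add_sub_cancel_left, ← Finset.sum_div]
    push_cast
    field_simp
  rw [← h3]
  have h4 : τ2 * (T * 2 ^ z) ≤ nform d K u T (2 ^ z)
      (fun x => ∏ j : {i : Fin m // ¬ IsN (c i)}, AN (B j / 2) (FA z A) (x + v j))
      (fun _ => FA z A) * (T * 2 ^ z) := mul_le_mul_of_nonneg_right hform (by positivity)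
  calc η * Q * (τ2 * 2 ^ z / (Real.log ((2 : ℝ) ^ z) ^ (m + 1) * 4 ^ m)) * T
      = η * Q * ((τ2 * (T * 2 ^ z)) / (Real.log ((2 : ℝ) ^ z) ^ (m + 1) * 4 ^ m)) := by ring
    _ ≤ _ := by gcongr

/-- a sum over an interval of windows -/
theorem windows_sum (D T W : ℕ) (h : D = T * W) (f : ℕ → ℝ) (x : ℝ)
    (hf : ∀ t < W, x * T ≤ ∑ k ∈ Ico (D + T * t) (D + T * t + T), f k) :
    x * D ≤ ∑ k ∈ Ico D (D + D), f k := by
  rw [Finset.sum_Ico_eq_sum_range, Nat.add_sub_cancel]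
  have h1 : ∑ k ∈ range D, f (D + k) = ∑ k ∈ range (T * W), f (D + k) := by rw [← h]
  rw [h1, Pool.Agent.Helper57.NX.sum_blocks T W (fun k => f (D + k))]
  have h2 : x * D = ∑ _t ∈ range W, x * T := by
    rw [Finset.sum_const, Finset.card_range, nsmul_eq_mul, h]
    push_cast
    ring
  rw [h2]
  refine Finset.sum_le_sum fun t ht => ?_
  refine (hf t (Finset.mem_range.mp ht)).trans (le_of_eq ?_)
  rw [Finset.sum_Ico_eq_sum_range, Nat.add_sub_cancel_left]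
  refine Finset.sum_congr rfl fun r _ => ?_
  rw [add_assoc]

end

end Pool.Agent.Helper57.NX3
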